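import Pool.Agent.Lib.MP_706923_coS.Spec

/-! The sub-difference set. -/

set_option autoImplicit false

namespace Pool.Agent.DSub

open Finset

section A

variable {G W : Type} [Group G] [Fintype G] [DecidableEq G] [CommGroup W] [Fintype W]
  [DecidableEq W]

private theorem a_num {k l v q : ℕ} (hlk : l ≤ k) (hk : k ^ 2 = (k - l) + l * v) (hv : q ∣ v) :
    ((q : ℤ) ∣ (k : ℤ) ^ 2 - k + l) ∧ ((q : ℤ) ∣ (k : ℤ) ^ 2 - (k - l : ℕ)) := by
  have h1 : ((k ^ 2 : ℕ) : ℤ) = ((k - l) + l * v : ℕ) := by rw [hk]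
  push_cast [Nat.cast_sub hlk] at h1
  have h2 : (q : ℤ) ∣ (v : ℤ) := Int.natCast_dvd_natCast.2 hv
  refine ⟨?_, ?_⟩
  · have h3 : (k : ℤ) ^ 2 - k + l = l * v := by linear_combination h1
    rw [h3]
    exact h2.mul_left _
  · have h3 : (k : ℤ) ^ 2 - (k - l : ℕ) = l * v := by
      rw [Nat.cast_sub hlk]
      linear_combination h1
    rw [h3]
    exact h2.mul_left _

private theorem a_cop {k l v q : ℕ} (hl : 0 < l) (hlk : l ≤ k) (hk : k ^ 2 = (k - l) + l * v)
    (hv : q ∣ v) (hq : q.Prime) (hlq : l < q) : ¬ q ∣ k ∧ ¬ q ∣ k - l := by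
  obtain ⟨h1, h2⟩ := a_num hlk hk hv
  have hnk : ¬ q ∣ k := by
    intro h
    have h3 : (q : ℤ) ∣ (k : ℤ) := Int.natCast_dvd_natCast.2 h
    have h4 : (q : ℤ) ∣ (l : ℤ) := by
      have h5 : (l : ℤ) = ((k : ℤ) ^ 2 - k + l) - k * (k - 1) := by ring
      rw [h5]
      exact dvd_sub h1 (h3.mul_right _)
    have h6 := Nat.le_of_dvd hl (Int.natCast_dvd_natCast.1 h4)
    omega
  refine ⟨hnk, fun h => ?_⟩
  have h3 : (q : ℤ) ∣ ((k - l : ℕ) : ℤ) := Int.natCast_dvd_natCast.2 h
  have h4 : (q : ℤ) ∣ (k : ℤ) ^ 2 := by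
    have h5 := dvd_add h2 h3
    rwa [sub_add_cancel] at h5
  have h5 : (q : ℤ) ∣ (k : ℤ) := (Nat.prime_iff_prime_int.1 hq).dvd_of_dvd_pow h4
  exact hnk (Int.natCast_dvd_natCast.1 h5)

omit [Fintype G] [DecidableEq G] [Fintype W] in
private theorem a_fil (f : G →* W) (D : Finset G) (g : G) (x : W) (hg : f g = x⁻¹) (w : W) :
    (D.filter fun d => f (d * g) = w) = D.filter fun d => f d = x * w := by
  refine Finset.filter_congr fun d _ => ?_
  rw [map_mul, hg, mul_inv_eq_iff_eq_mul, mul_comm w x]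

omit [Fintype G] [Fintype W] in
private theorem a_pairs (f : G →* W) (D : Finset G) (l : ℕ) (hD : IsDS D l) (g : G)
    (h : ∀ w : W, w ≠ 1 → (D.filter fun d => f (d * g) = w).card ≤ 1) (y : G) (hy : y ≠ 1)
    (hfy : f y = 1) : (((D.filter fun d => f (d * g) = 1) ×ˢ
      (D.filter fun d => f (d * g) = 1)).filter (fun p => p.1 * p.2⁻¹ = y)).card = l := by
  rw [← hD y hy]
  congr 1
  ext ⟨d, d'⟩
  simp only [Finset.mem_filter, Finset.mem_product]
  constructor
  · rintro ⟨⟨⟨h1, _⟩, h2, _⟩, h3⟩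
    exact ⟨⟨h1, h2⟩, h3⟩
  · rintro ⟨⟨h1, h2⟩, h3⟩
    have h4 : d = y * d' := by rw [← h3, inv_mul_cancel_right]
    have h5 : f (d * g) = f (d' * g) := by
      rw [h4, mul_assoc, map_mul, hfy, one_mul]
    have h6 : d ≠ d' := by
      intro h7
      rw [h7, mul_inv_cancel] at h3
      exact hy h3.symm
    have h8 : f (d' * g) = 1 := by
      by_contra h9
      have h10 := h _ h9
      rw [Finset.card_le_one] at h10
      exact h6 (h10 d (Finset.mem_filter.2 ⟨h1, h5⟩) d' (Finset.mem_filter.2 ⟨h2, rfl⟩))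
    exact ⟨⟨⟨h1, by rw [h5, h8]⟩, h2, h8⟩, h3⟩

end A

theorem tA (h1 : S_Fix) (h2 : S_Ari) (h3 : S_Orb) (h4 : S_Psh) : S_A := by
  intro l r hl
  obtain ⟨B0, hB0⟩ := h2 l (l * r) ((l * r) ^ (l * r)) hl
  refine ⟨max B0 (l + 2), ?_⟩
  intro G W _ _ _ _ _ _ f D hf hr hq hD
  by_cases hG : Fintype.card G ≤ 1
  · have hsub : Subsingleton G := Fintype.card_le_one_iff_subsingleton.1 hG
    have hsubW : Subsingleton W := hf.subsingleton
    have hr1 : r = 1 := by
      rw [← hr, Nat.card_eq_one_iff_unique]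
      exact ⟨inferInstance, inferInstance⟩
    have hle : (D.filter fun d => f (d * 1) = 1).card ≤ 1 :=
      Finset.card_le_one.2 fun a _ b _ => Subsingleton.elim a b
    refine ⟨1, _, rfl, ?_, fun y hy => absurd (Subsingleton.elim y 1) hy,
      fun w hw => absurd (Subsingleton.elim w 1) hw⟩
    rw [hr1]
    have h5 : (D.filter fun d => f (d * 1) = 1).card = 0 ∨
        (D.filter fun d => f (d * 1) = 1).card = 1 := by omega
    rcases h5 with h5 | h5 <;> rw [h5] <;> simp
  push Not at hG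
  obtain ⟨hlk, hk2, hW⟩ := h4 G D l hD hG
  obtain ⟨hcard, hsum, hcor⟩ := hW W f hf
  rw [hr] at hcard hcor
  by_cases hW1 : Fintype.card W = 1
  · have hsubW : Subsingleton W := Fintype.card_le_one_iff_subsingleton.1 hW1.le
    have hfil : (D.filter fun d => f (d * 1) = 1) = D :=
      Finset.filter_true_of_mem fun d _ => Subsingleton.elim _ _
    refine ⟨1, D.card, by rw [hfil], ?_, ?_, fun w hw => absurd (Subsingleton.elim w 1) hw⟩
    · have h5 : D.card * D.card = (D.card - l) + l * r := by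
        rw [← pow_two, hk2, hcard, hW1, mul_one]
      have hr0 : 0 < r := by
        rcases Nat.eq_zero_or_pos r with h6 | h6
        · rw [h6, zero_mul] at hcard
          omega
        · exact h6
      obtain ⟨s, rfl⟩ : ∃ s, r = s + 1 := ⟨r - 1, by omega⟩
      obtain ⟨n, hn⟩ : ∃ n, D.card = n + l := ⟨D.card - l, by omega⟩
      rw [hn] at h5 ⊢
      rw [Nat.add_sub_cancel] at h5
      rw [Nat.add_sub_cancel]
      rcases Nat.eq_zero_or_pos (n + l) with h6 | h6
      · omega
      · obtain ⟨t, ht⟩ : ∃ t, n + l = t + 1 := ⟨n + l - 1, by omega⟩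
        rw [ht] at h5 ⊢
        rw [Nat.add_sub_cancel]
        have h7 : n = t + 1 - l := by omega
        have h8 : l ≤ t + 1 := by omega
        zify [h8] at h5 h7 ⊢
        rw [h7] at h5
        linear_combination -h5
    · intro y hy _
      rw [hfil]
      exact hD y hy
  -- the main case
  have hbig : ∀ q : ℕ, q.Prime → q ∣ Fintype.card W → B0 < q ∧ l + 2 < q := fun q hq1 hq2 =>
    max_lt_iff.1 (hq q hq1 hq2)
  have hWG : Fintype.card W ∣ Fintype.card G := ⟨r, by rw [hcard, mul_comm]⟩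
  have hcopk : Nat.Coprime D.card (Fintype.card W) := by
    refine Nat.Coprime.symm (Nat.coprime_of_dvd fun q hq1 hq2 hq3 => ?_)
    exact (a_cop (by omega) hlk hk2 (hq2.trans hWG) hq1 (by have := (hbig q hq1 hq2).2; omega)).1
      hq3
  have hcopn : Nat.Coprime (D.card - l) (Fintype.card W) := by
    refine Nat.Coprime.symm (Nat.coprime_of_dvd fun q hq1 hq2 hq3 => ?_)
    exact (a_cop (by omega) hlk hk2 (hq2.trans hWG) hq1 (by have := (hbig q hq1 hq2).2; omega)).2
      hq3
  obtain ⟨q0, hq0, hq0W⟩ := Nat.exists_prime_and_dvd hW1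
  have hGpos : 0 < Fintype.card G := by omega
  have hv : l + 2 < Fintype.card G :=
    lt_of_lt_of_le (hbig q0 hq0 hq0W).2 (Nat.le_of_dvd hGpos (hq0W.trans hWG))
  have hn : 0 < D.card - l := by
    rcases Nat.eq_zero_or_pos (D.card - l) with h5 | h5
    · exfalso
      have h6 : D.card = l := by omega
      rw [h5, zero_add, h6, pow_two] at hk2
      have h7 := Nat.eq_of_mul_eq_mul_left (by omega) hk2
      omega
    · exact h5
  have hr0 : 0 < r := by
    rcases Nat.eq_zero_or_pos r with h6 | h6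
    · rw [h6, zero_mul] at hcard
      omega
    · exact h6
  have hμ : 0 < l * r := Nat.mul_pos (by omega) hr0
  obtain ⟨x, n0, n1, hn01, hn0, hfix, -⟩ := h1 W _ (D.card - l) (l * r) hcor hn hμ
    (by rw [hsum]; exact hcopk) hcopn
  obtain ⟨g, hg⟩ := hf x⁻¹
  -- the function F
  let F : W → ℕ := fun w => (D.filter fun d => f (d * g) = w).card
  have hF : ∀ w, F w = (D.filter fun d => f d = x * w).card := fun w => by
    change (D.filter fun d => f (d * g) = w).card = _
    rw [a_fil f D g x hg w]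
  have hFfix : ∀ w, F (w ^ n1) = F w := fun w => by
    rw [hF, hF]
    exact hfix w
  have hFsum : ∑ w, F w = D.card := by
    rw [← hsum]
    rw [Finset.sum_congr rfl fun w _ => hF w]
    exact Equiv.sum_comp (Equiv.mulLeft x) fun w => (D.filter fun d => f d = w).card
  have hFsq : ∑ w, F w * F w = (D.card - l) + l * r := by
    rw [← hcor.one, Finset.sum_congr rfl fun w _ => by rw [hF w]]
    exact Equiv.sum_comp (Equiv.mulLeft x) fun w =>
      (D.filter fun d => f d = w).card * (D.filter fun d => f d = w).card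
  have hFF : ∑ w, F w * (F w - 1) = l * (r - 1) := by
    have h5 : ∑ w, F w * (F w - 1) + ∑ w, F w = ∑ w, F w * F w := by
      rw [← Finset.sum_add_distrib]
      refine Finset.sum_congr rfl fun w _ => ?_
      rcases Nat.eq_zero_or_pos (F w) with h6 | h6
      · rw [h6]
      · obtain ⟨t, ht⟩ : ∃ t, F w = t + 1 := ⟨F w - 1, by omega⟩
        rw [ht, Nat.add_sub_cancel]
        ring
    rw [hFsum, hFsq] at h5
    obtain ⟨s, rfl⟩ : ∃ s, r = s + 1 := ⟨r - 1, by omega⟩
    rw [Nat.add_sub_cancel]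
    rw [Nat.mul_add, mul_one] at h5
    omega
  -- no other coset has two elements
  have hone : ∀ w : W, w ≠ 1 → F w ≤ 1 := by
    by_contra hcon
    push Not at hcon
    obtain ⟨w, hw1, hw2⟩ := hcon
    let T : Finset W := Finset.univ.filter fun w => w ≠ 1 ∧ 2 ≤ F w
    have hwT : w ∈ T := Finset.mem_filter.2 ⟨Finset.mem_univ _, hw1, hw2⟩
    have hcop1 : Nat.Coprime n1 (Fintype.card W) :=
      Nat.Coprime.coprime_dvd_left ⟨n0, by rw [hn01, mul_comm]⟩ hcopn
    have hTc : ∀ w ∈ T, w ^ n1 ∈ T := by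
      intro w hw
      obtain ⟨-, h5, h6⟩ := Finset.mem_filter.1 hw
      refine Finset.mem_filter.2 ⟨Finset.mem_univ _, fun h7 => h5 ?_, by rw [hFfix]; exact h6⟩
      have h8 : orderOf w ∣ n1 := orderOf_dvd_of_pow_eq_one h7
      have h9 : orderOf w ∣ Fintype.card W := orderOf_dvd_card
      have h10 : orderOf w ∣ 1 := by
        have := Nat.dvd_gcd h8 h9
        rwa [hcop1] at this
      rw [Nat.dvd_one, orderOf_eq_one_iff] at h10
      exact h10
    have hTcard : T.card ≤ l * r := by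
      have h5 : T.card ≤ ∑ w, F w * (F w - 1) := by
        rw [Finset.card_eq_sum_ones]
        refine (Finset.sum_le_sum fun w hw => ?_).trans
          (Finset.sum_le_sum_of_subset (Finset.subset_univ T))
        obtain ⟨-, -, h6⟩ := Finset.mem_filter.1 hw
        exact Nat.mul_pos (by omega) (by omega)
      rw [hFF] at h5
      exact h5.trans (Nat.mul_le_mul_left _ (by omega))
    obtain ⟨φ, hφ1, hφ2, hφ3⟩ := h3 W T n1 hcop1 hTc w hwT
    have hord : orderOf w ≠ 1 := fun h5 => hw1 (orderOf_eq_one_iff.1 h5)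
    obtain ⟨q, hq1, hq2⟩ := Nat.exists_prime_and_dvd hord
    have hqW : q ∣ Fintype.card W := hq2.trans orderOf_dvd_card
    obtain ⟨h5, h6⟩ := a_num hlk hk2 (hqW.trans hWG)
    have h7 : (q : ℤ) ∣ (n1 : ℤ) ^ φ - 1 := (Int.natCast_dvd_natCast.2 hq2).trans hφ3
    have h8 := hB0 φ n0 n1 D.card q hφ1 (hφ2.trans hTcard) hn0 h5
      (by rw [hn01] at h6; push_cast at h6; exact h6) h7
    have h9 := (hbig q hq1 hqW).1
    omega
  refine ⟨g, F 1, rfl, ?_, fun y hy hfy => a_pairs f D l hD g hone y hy hfy, hone⟩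
  rw [← hFF]
  refine (Finset.sum_eq_single (1 : W) (fun w _ hw => ?_) fun h => absurd (Finset.mem_univ _) h)
  have h5 := hone w hw
  have h6 : F w - 1 = 0 := by omega
  rw [h6, mul_zero]

end Pool.Agent.DSub
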