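import Pool.Agent.Lib.MP_706923_coS.A

/-!
# MP_706923_co, package S: the orders of the elements of a difference set

THEOREM (A2). Fix `l ≥ 2` and `r`. There is a function `B` such that for every difference set `D` with
parameter `l` in a finite group `G` and every surjective homomorphism `f` from `G` onto an abelian
group `W` of order prime to `l`, with kernel of order `r`, some translate `D g` has the following
property: for all `d ≠ d'` in `D` the order of `f (d g)` is at most `B (order of f (d d'⁻¹))`.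
It contains (A).
-/

set_option autoImplicit false

namespace Pool.Agent.DSub

open Finset

/-- **A2** (uses `S_Fix`, `S_Ari`, `S_Orb`, `S_Psh`). -/
def S_A2 : Prop :=
  ∀ l r : ℕ, 2 ≤ l → ∃ B : ℕ → ℕ, ∀ (G W : Type) [Group G] [Fintype G] [DecidableEq G]
    [CommGroup W] [Fintype W] [DecidableEq W] (f : G →* W) (D : Finset G),
    Function.Surjective f → Nat.card f.ker = r → Nat.Coprime (Fintype.card W) l → IsDS D l →
    ∃ g : G, (∀ d ∈ D, ∀ d' ∈ D, d ≠ d' →
        orderOf (f (d * g)) ≤ B (orderOf (f (d * d'⁻¹)))) ∧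
      ((∀ q : ℕ, q.Prime → q ∣ Fintype.card W → B 1 < q) →
        ∃ j : ℕ, (D.filter fun d => f (d * g) = 1).card = j ∧ l * (r - 1) = j * (j - 1) ∧
        (∀ y : G, y ≠ 1 → f y = 1 → (((D.filter fun d => f (d * g) = 1) ×ˢ
          (D.filter fun d => f (d * g) = 1)).filter (fun p => p.1 * p.2⁻¹ = y)).card = l) ∧
        ∀ w : W, w ≠ 1 → (D.filter fun d => f (d * g) = w).card ≤ 1)

section A2

variable {G W : Type} [Group G] [Fintype G] [DecidableEq G] [CommGroup W] [Fintype W]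
  [DecidableEq W]

private theorem a2_num {k l v q : ℕ} (hlk : l ≤ k) (hk : k ^ 2 = (k - l) + l * v) (hv : q ∣ v) :
    ((q : ℤ) ∣ (k : ℤ) ^ 2 - k + l) ∧ ((q : ℤ) ∣ (k : ℤ) ^ 2 - (k - l : ℕ)) := by
  have h1 : ((k ^ 2 : ℕ) : ℤ) = ((k - l) + l * v : ℕ) := by rw [hk]
  push_cast [Nat.cast_sub hlk] at h1
  have h2 : (q : ℤ) ∣ (v : ℤ) := Int.natCast_dvd_natCast.2 hv
  refine ⟨?_, ?_⟩
  · have h3 : (k : ℤ) ^ 2 - k + l = l * v := by linear_combination h1
    rw [h3]
    exact h2.mul_left _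
  · have h3 : (k : ℤ) ^ 2 - (k - l : ℕ) = l * v := by
      rw [Nat.cast_sub hlk]
      linear_combination h1
    rw [h3]
    exact h2.mul_left _

private theorem a2_cop {k l v q : ℕ} (hlk : l ≤ k) (hk : k ^ 2 = (k - l) + l * v)
    (hv : q ∣ v) (hq : q.Prime) (hlq : ¬ q ∣ l) : ¬ q ∣ k ∧ ¬ q ∣ k - l := by
  obtain ⟨h1, h2⟩ := a2_num hlk hk hv
  have hnk : ¬ q ∣ k := by
    intro h
    have h3 : (q : ℤ) ∣ (k : ℤ) := Int.natCast_dvd_natCast.2 h
    have h4 : (q : ℤ) ∣ (l : ℤ) := by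
      have h5 : (l : ℤ) = ((k : ℤ) ^ 2 - k + l) - k * (k - 1) := by ring
      rw [h5]
      exact dvd_sub h1 (h3.mul_right _)
    exact hlq (Int.natCast_dvd_natCast.1 h4)
  refine ⟨hnk, fun h => ?_⟩
  have h3 : (q : ℤ) ∣ ((k - l : ℕ) : ℤ) := Int.natCast_dvd_natCast.2 h
  have h4 : (q : ℤ) ∣ (k : ℤ) ^ 2 := by
    have h5 := dvd_add h2 h3
    rwa [sub_add_cancel] at h5
  have h5 : (q : ℤ) ∣ (k : ℤ) := (Nat.prime_iff_prime_int.1 hq).dvd_of_dvd_pow h4
  exact hnk (Int.natCast_dvd_natCast.1 h5)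

omit [Fintype G] [DecidableEq G] [Fintype W] in
private theorem a2_fil (f : G →* W) (D : Finset G) (g : G) (x : W) (hg : f g = x⁻¹) (w : W) :
    (D.filter fun d => f (d * g) = w) = D.filter fun d => f d = x * w := by
  refine Finset.filter_congr fun d _ => ?_
  rw [map_mul, hg, mul_inv_eq_iff_eq_mul, mul_comm w x]

omit [Fintype G] [Fintype W] in
private theorem a2_pairs (f : G →* W) (D : Finset G) (l : ℕ) (hD : IsDS D l) (g : G)
    (h : ∀ w : W, w ≠ 1 → (D.filter fun d => f (d * g) = w).card ≤ 1) (y : G) (hy : y ≠ 1)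
    (hfy : f y = 1) : (((D.filter fun d => f (d * g) = 1) ×ˢ
      (D.filter fun d => f (d * g) = 1)).filter (fun p => p.1 * p.2⁻¹ = y)).card = l := by
  rw [← hD y hy]
  congr 1
  ext ⟨d, d'⟩
  simp only [Finset.mem_filter, Finset.mem_product]
  constructor
  · rintro ⟨⟨⟨h1, _⟩, h2, _⟩, h3⟩
    exact ⟨⟨h1, h2⟩, h3⟩
  · rintro ⟨⟨h1, h2⟩, h3⟩
    have h4 : d = y * d' := by rw [← h3, inv_mul_cancel_right]
    have h5 : f (d * g) = f (d' * g) := by
      rw [h4, mul_assoc, map_mul, hfy, one_mul]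
    have h6 : d ≠ d' := by
      intro h7
      rw [h7, mul_inv_cancel] at h3
      exact hy h3.symm
    have h8 : f (d' * g) = 1 := by
      by_contra h9
      have h10 := h _ h9
      rw [Finset.card_le_one] at h10
      exact h6 (h10 d (Finset.mem_filter.2 ⟨h1, h5⟩) d' (Finset.mem_filter.2 ⟨h2, rfl⟩))
    exact ⟨⟨⟨h1, by rw [h5, h8]⟩, h2, h8⟩, h3⟩

omit [DecidableEq W] in
/-- A small set of elements of `W` which is closed under `u ↦ u ^ (n1 ^ φ(e))` has only elements of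
bounded order. -/
private theorem a2_small (h3 : S_Orb) (T : Finset W) (n1 e M : ℕ)
    (hcop1 : Nat.Coprime n1 (Fintype.card W)) (hT : ∀ u ∈ T, u ^ (n1 ^ Nat.totient e) ∈ T)
    (hTM : T.card ≤ M) (he : 0 < e) (u : W) (hu : u ∈ T) :
    ∃ φ : ℕ, 1 ≤ φ ∧ φ ≤ e * M ∧ ((orderOf u : ℕ) : ℤ) ∣ (n1 : ℤ) ^ φ - 1 := by
  obtain ⟨φ, hφ1, hφ2, hφ3⟩ := h3 W T (n1 ^ Nat.totient e) (hcop1.pow_left _) hT u hu
  refine ⟨Nat.totient e * φ, Nat.mul_pos (Nat.totient_pos.2 he) hφ1,
    Nat.mul_le_mul (Nat.totient_le e) (hφ2.trans hTM), ?_⟩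
  rw [pow_mul]
  push_cast at hφ3
  exact hφ3

end A2

theorem tA2 (h1 : S_Fix) (h2 : S_Ari) (h3 : S_Orb) (h4 : S_Psh) : S_A2 := by
  intro l r hl
  have h2' : ∀ e : ℕ, ∃ B : ℕ, ∀ φ n0 n1 k q : ℕ, 1 ≤ φ → φ ≤ e * (l * r) →
      n0 ≤ (l * r) ^ (l * r) →
      (q : ℤ) ∣ (k : ℤ) ^ 2 - k + l → (q : ℤ) ∣ (k : ℤ) ^ 2 - n0 * n1 →
      (q : ℤ) ∣ (n1 : ℤ) ^ φ - 1 → q ≤ B := fun e => h2 l (e * (l * r)) ((l * r) ^ (l * r)) hl
  choose B0 hB0 using h2'
  obtain ⟨B1, hB1⟩ := tA h1 h2 h3 h4 l r hl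
  refine ⟨fun e => B0 e + B1 + 1, ?_⟩
  intro G W _ _ _ _ _ _ f D hf hr hcl hD
  by_cases hW1 : Fintype.card W = 1
  · have hsubW : Subsingleton W := Fintype.card_le_one_iff_subsingleton.1 hW1.le
    obtain ⟨g, j, hj⟩ := hB1 G W f D hf hr (fun q hq hqW => by
      rw [hW1, Nat.dvd_one] at hqW
      exact absurd (hqW ▸ hq) Nat.not_prime_one) hD
    refine ⟨g, fun d _ d' _ _ => ?_, fun _ => ⟨j, hj⟩⟩
    rw [Subsingleton.elim (f (d * g)) 1, orderOf_one]
    beta_reduce
    omega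
  have hG : 2 ≤ Fintype.card G := by
    have h5 : 0 < Fintype.card W := Fintype.card_pos
    have h6 : Fintype.card W ≤ Fintype.card G := Fintype.card_le_of_surjective f hf
    omega
  obtain ⟨hlk, hk2, hW⟩ := h4 G D l hD hG
  obtain ⟨hcard, hsum, hcor⟩ := hW W f hf
  rw [hr] at hcard hcor
  have hWG : Fintype.card W ∣ Fintype.card G := ⟨r, by rw [hcard, mul_comm]⟩
  have hndl : ∀ q : ℕ, q.Prime → q ∣ Fintype.card W → ¬ q ∣ l := fun q hq hqW hql => by
    have h5 : q ∣ 1 := by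
      have := Nat.dvd_gcd hqW hql
      rwa [hcl] at this
    exact hq.one_lt.ne' (Nat.dvd_one.1 h5)
  have hcopk : Nat.Coprime D.card (Fintype.card W) := by
    refine Nat.Coprime.symm (Nat.coprime_of_dvd fun q hq1 hq2 hq3 => ?_)
    exact (a2_cop hlk hk2 (hq2.trans hWG) hq1 (hndl q hq1 hq2)).1 hq3
  have hcopn : Nat.Coprime (D.card - l) (Fintype.card W) := by
    refine Nat.Coprime.symm (Nat.coprime_of_dvd fun q hq1 hq2 hq3 => ?_)
    exact (a2_cop hlk hk2 (hq2.trans hWG) hq1 (hndl q hq1 hq2)).2 hq3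
  have hn : 0 < D.card - l := by
    rcases Nat.eq_zero_or_pos (D.card - l) with h5 | h5
    · exfalso
      have h6 : D.card = l := by omega
      rw [h5, zero_add, h6, pow_two] at hk2
      have h7 := Nat.eq_of_mul_eq_mul_left (by omega) hk2
      obtain ⟨q0, hq0, hq0W⟩ := Nat.exists_prime_and_dvd hW1
      exact hndl q0 hq0 hq0W (h7 ▸ hq0W.trans hWG)
    · exact h5
  have hr0 : 0 < r := by
    rcases Nat.eq_zero_or_pos r with h6 | h6
    · rw [h6, zero_mul] at hcard
      omega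
    · exact h6
  have hμ : 0 < l * r := Nat.mul_pos (by omega) hr0
  obtain ⟨x, n0, n1, hn01, hn0, hfix, -⟩ := h1 W _ (D.card - l) (l * r) hcor hn hμ
    (by rw [hsum]; exact hcopk) hcopn
  obtain ⟨g, hg⟩ := hf x⁻¹
  -- the function F
  let F : W → ℕ := fun w => (D.filter fun d => f (d * g) = w).card
  have hF : ∀ w, F w = (D.filter fun d => f d = x * w).card := fun w => by
    change (D.filter fun d => f (d * g) = w).card = _
    rw [a2_fil f D g x hg w]
  have hFfix : ∀ w, F (w ^ n1) = F w := fun w => by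
    rw [hF, hF]
    exact hfix w
  have hFfix' : ∀ (s : ℕ) (w : W), F (w ^ (n1 ^ s)) = F w := by
    intro s
    induction s with
    | zero => intro w; rw [pow_zero, pow_one]
    | succ s ih => intro w; rw [pow_succ, pow_mul, hFfix, ih]
  have hFsum : ∑ w, F w = D.card := by
    rw [← hsum]
    rw [Finset.sum_congr rfl fun w _ => hF w]
    exact Equiv.sum_comp (Equiv.mulLeft x) fun w => (D.filter fun d => f d = w).card
  have hFsq : ∑ w, F w * F w = (D.card - l) + l * r := by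
    rw [← hcor.one, Finset.sum_congr rfl fun w _ => by rw [hF w]]
    exact Equiv.sum_comp (Equiv.mulLeft x) fun w =>
      (D.filter fun d => f d = w).card * (D.filter fun d => f d = w).card
  have hFne : ∀ y : W, y ≠ 1 → ∑ w, F (w * y) * F w = l * r := by
    intro y hy
    rw [← hcor.ne y hy, Finset.sum_congr rfl fun w _ => by rw [hF w, hF (w * y), ← mul_assoc]]
    exact Equiv.sum_comp (Equiv.mulLeft x) fun w =>
      (D.filter fun d => f d = w * y).card * (D.filter fun d => f d = w).card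
  have hFF : ∑ w, F w * (F w - 1) = l * (r - 1) := by
    have h5 : ∑ w, F w * (F w - 1) + ∑ w, F w = ∑ w, F w * F w := by
      rw [← Finset.sum_add_distrib]
      refine Finset.sum_congr rfl fun w _ => ?_
      rcases Nat.eq_zero_or_pos (F w) with h6 | h6
      · rw [h6]
      · obtain ⟨t, ht⟩ : ∃ t, F w = t + 1 := ⟨F w - 1, by omega⟩
        rw [ht, Nat.add_sub_cancel]
        ring
    rw [hFsum, hFsq] at h5
    obtain ⟨s, rfl⟩ : ∃ s, r = s + 1 := ⟨r - 1, by omega⟩
    rw [Nat.add_sub_cancel]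
    rw [Nat.mul_add, mul_one] at h5
    omega
  have hcop1 : Nat.Coprime n1 (Fintype.card W) :=
    Nat.Coprime.coprime_dvd_left ⟨n0, by rw [hn01, mul_comm]⟩ hcopn
  -- elements of the form `(y, u)`, `y` of order `e`
  have hkey : ∀ (T : Finset W) (e : ℕ), 0 < e → T.card ≤ l * r →
      (∀ u ∈ T, u ^ (n1 ^ Nat.totient e) ∈ T) → ∀ u ∈ T, orderOf u ≤ B0 e := by
    intro T e he hTc hT u hu
    obtain ⟨φ, hφ1, hφ2, hφ3⟩ := a2_small h3 T n1 e (l * r) hcop1 hT hTc he u hu
    obtain ⟨h5, h6⟩ := a2_num hlk hk2 ((orderOf_dvd_card (x := u)).trans hWG)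
    exact hB0 e φ n0 n1 D.card (orderOf u) hφ1 hφ2 hn0 h5
      (by rw [hn01] at h6; push_cast at h6; exact h6) hφ3
  have hfirst : ∀ d ∈ D, ∀ d' ∈ D, d ≠ d' →
      orderOf (f (d * g)) ≤ B0 (orderOf (f (d * d'⁻¹))) := by
    intro d hd d' hd' hne
    set y := f (d' * d⁻¹) with hy
    have hyo : orderOf (f (d * d'⁻¹)) = orderOf y := by
      rw [hy, ← orderOf_inv (f (d * d'⁻¹)), ← map_inv, mul_inv_rev, inv_inv]
    rw [hyo]
    have he : 0 < orderOf y := orderOf_pos y
    have hyt : y ^ (n1 ^ Nat.totient (orderOf y)) = y := by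
      have h5 : Nat.Coprime n1 (orderOf y) := hcop1.coprime_dvd_right orderOf_dvd_card
      have h6 : n1 ^ Nat.totient (orderOf y) ≡ 1 [MOD orderOf y] := Nat.ModEq.pow_totient h5
      have h7 : y ^ (n1 ^ Nat.totient (orderOf y)) = y ^ 1 := pow_eq_pow_iff_modEq.2 h6
      rw [h7, pow_one]
    have hdg : d ∈ D.filter fun a => f (a * g) = f (d * g) := Finset.mem_filter.2 ⟨hd, rfl⟩
    have hd'g : f (d' * g) = f (d * g) * y := by
      rw [hy, mul_comm, ← map_mul]
      congr 1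
      group
    by_cases hy1 : y = 1
    · refine hkey (Finset.univ.filter fun u => 2 ≤ F u) (orderOf y) he ?_ ?_ _ ?_
      · have h5 : (Finset.univ.filter fun u => 2 ≤ F u).card ≤ ∑ w, F w * (F w - 1) := by
          rw [Finset.card_eq_sum_ones]
          refine (Finset.sum_le_sum fun w hw => ?_).trans
            (Finset.sum_le_sum_of_subset (Finset.filter_subset _ _))
          have h6 := (Finset.mem_filter.1 hw).2
          exact Nat.mul_pos (by omega) (by omega)
        rw [hFF] at h5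
        exact h5.trans (Nat.mul_le_mul_left _ (by omega))
      · intro u hu
        refine Finset.mem_filter.2 ⟨Finset.mem_univ _, ?_⟩
        rw [hFfix']
        exact (Finset.mem_filter.1 hu).2
      · refine Finset.mem_filter.2 ⟨Finset.mem_univ _, ?_⟩
        change 1 < (D.filter fun a => f (a * g) = f (d * g)).card
        refine Finset.one_lt_card.2 ⟨d, hdg, d', Finset.mem_filter.2 ⟨hd', ?_⟩, hne⟩
        rw [hd'g, hy1, mul_one]
    · refine hkey (Finset.univ.filter fun u => 0 < F (u * y) * F u) (orderOf y) he ?_ ?_ _ ?_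
      · have h5 : (Finset.univ.filter fun u => 0 < F (u * y) * F u).card ≤
            ∑ w, F (w * y) * F w := by
          rw [Finset.card_eq_sum_ones]
          refine (Finset.sum_le_sum fun w hw => ?_).trans
            (Finset.sum_le_sum_of_subset (Finset.filter_subset _ _))
          exact (Finset.mem_filter.1 hw).2
        rw [hFne y hy1] at h5
        exact h5
      · intro u hu
        refine Finset.mem_filter.2 ⟨Finset.mem_univ _, ?_⟩
        have h5 : u ^ (n1 ^ Nat.totient (orderOf y)) * y =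
            (u * y) ^ (n1 ^ Nat.totient (orderOf y)) := by
          rw [mul_pow, hyt]
        rw [h5, hFfix', hFfix']
        exact (Finset.mem_filter.1 hu).2
      · refine Finset.mem_filter.2 ⟨Finset.mem_univ _, Nat.mul_pos ?_ ?_⟩
        · exact Finset.card_pos.2 ⟨d', Finset.mem_filter.2 ⟨hd', hd'g⟩⟩
        · exact Finset.card_pos.2 ⟨d, hdg⟩
  refine ⟨g, fun d hd d' hd' hne => (hfirst d hd d' hd' hne).trans (by beta_reduce; omega),
    fun hbig => ?_⟩
  have hone : ∀ w : W, w ≠ 1 → F w ≤ 1 := by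
    intro w hw
    by_contra hcon
    push Not at hcon
    obtain ⟨d, hd, d', hd', hne⟩ := Finset.one_lt_card.1 hcon
    obtain ⟨hd1, hd2⟩ := Finset.mem_filter.1 hd
    obtain ⟨hd3, hd4⟩ := Finset.mem_filter.1 hd'
    have h5 := hfirst d hd1 d' hd3 hne
    have h6 : f (d * d'⁻¹) = 1 := by
      have h7 : d * d'⁻¹ = (d * g) * (d' * g)⁻¹ := by group
      rw [h7, map_mul, map_inv, hd2, hd4, mul_inv_cancel]
    rw [h6, orderOf_one, hd2] at h5
    have hord : orderOf w ≠ 1 := fun h5 => hw (orderOf_eq_one_iff.1 h5)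
    obtain ⟨q, hq1, hq2⟩ := Nat.exists_prime_and_dvd hord
    have h8 : B0 1 + B1 + 1 < q := hbig q hq1 (hq2.trans orderOf_dvd_card)
    have h9 := Nat.le_of_dvd (orderOf_pos w) hq2
    omega
  refine ⟨F 1, rfl, ?_, fun y hy hfy => a2_pairs f D l hD g hone y hy hfy, hone⟩
  rw [← hFF]
  refine (Finset.sum_eq_single (1 : W) (fun w _ hw => ?_) fun h => absurd (Finset.mem_univ _) h)
  have h5 := hone w hw
  have h6 : F w - 1 = 0 := by omega
  rw [h6, mul_zero]

end Pool.Agent.DSub
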