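import Pool.Agent.Lib.MP_706923_coS.Spec

/-!
# MP_706923_co, package S: the arithmetic (`S_Ari`)
-/

set_option autoImplicit false

namespace Pool.Agent.DSub

private def ariU (l : ℤ) : ℕ → ℤ
  | 0 => 0
  | 1 => 1
  | (j + 2) => ariU l (j + 1) - l * ariU l j

private lemma ariU_mod (l : ℤ) (j : ℕ) : l ∣ ariU l (j + 1) - 1 := by
  induction j with
  | zero => simp [ariU]
  | succ j ih =>
    have h : ariU l (j + 1 + 1) - 1 = (ariU l (j + 1) - 1) - l * ariU l j := by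
      rw [ariU]; ring
    rw [h]
    exact dvd_sub ih (dvd_mul_right _ _)

private lemma ariU_ne (l : ℕ) (hl : 2 ≤ l) (j : ℕ) : ariU (l : ℤ) (j + 1) ≠ 0 := by
  intro h0
  have h := ariU_mod (l : ℤ) j
  rw [h0] at h
  have h1 : (l : ℤ) ∣ 1 := by
    have := (dvd_neg (a := (l : ℤ)) (b := (0 - 1 : ℤ))).mpr h
    simpa using this
  have h2 := Int.le_of_dvd (by norm_num) h1
  omega

private lemma ariU_pow (l k q : ℤ) (hq : q ∣ k ^ 2 - k + l) (j : ℕ) :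
    q ∣ k ^ (j + 1) - (ariU l (j + 1) * k - l * ariU l j) := by
  induction j with
  | zero => simp [ariU]
  | succ j ih =>
    have h : k ^ (j + 1 + 1) - (ariU l (j + 1 + 1) * k - l * ariU l (j + 1))
        = k * (k ^ (j + 1) - (ariU l (j + 1) * k - l * ariU l j))
          + ariU l (j + 1) * (k ^ 2 - k + l) := by
      rw [ariU]; ring
    rw [h]
    exact dvd_add (Dvd.dvd.mul_left ih _) (Dvd.dvd.mul_left hq _)

/-- The bound for one pair `(φ, n0)`, `φ = i + 1`. -/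
private def ariM (l : ℤ) (i n0 : ℕ) : ℤ :=
  l * ariU l (2 * i + 1 + 1) ^ 2
    + ariU l (2 * i + 1 + 1) * (-(l * ariU l (2 * i + 1)) - (n0 : ℤ) ^ (i + 1))
    + (-(l * ariU l (2 * i + 1)) - (n0 : ℤ) ^ (i + 1)) ^ 2

private lemma ariM_pos (l : ℕ) (hl : 2 ≤ l) (i n0 : ℕ) : 0 < ariM (l : ℤ) i n0 := by
  have hA := ariU_ne l hl (2 * i + 1)
  unfold ariM
  generalize ariU (l : ℤ) (2 * i + 1 + 1) = A at hA
  generalize (-((l : ℤ) * ariU (l : ℤ) (2 * i + 1)) - (n0 : ℤ) ^ (i + 1)) = b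
  have h1 : 0 < A ^ 2 := by positivity
  have h2 : (2 : ℤ) ≤ l := by exact_mod_cast hl
  nlinarith [sq_nonneg (2 * b + A), mul_le_mul_of_nonneg_right h2 h1.le]

theorem tAri : S_Ari := by
  intro l Φ C hl
  refine ⟨∑ i ∈ Finset.range (Φ + 1), ∑ c ∈ Finset.range (C + 1), (ariM (l : ℤ) i c).natAbs, ?_⟩
  intro φ n0 n1 k q hφ hφΦ hn0 h1 h2 h3
  obtain ⟨i, rfl⟩ : ∃ i, φ = i + 1 := ⟨φ - 1, by omega⟩
  have hM : (q : ℤ) ∣ ariM (l : ℤ) i n0 := by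
    have hp := ariU_pow (l : ℤ) (k : ℤ) (q : ℤ) h1 (2 * i + 1)
    have e1 : (q : ℤ) ∣ ((k : ℤ) ^ 2) ^ (i + 1) - ((n0 : ℤ) * n1) ^ (i + 1) :=
      h2.trans (sub_dvd_pow_sub_pow _ _ _)
    have e2 : (q : ℤ) ∣ (n0 : ℤ) ^ (i + 1) * ((n1 : ℤ) ^ (i + 1) - 1) := Dvd.dvd.mul_left h3 _
    have e3 : (q : ℤ) ∣ ariU (l : ℤ) (2 * i + 1 + 1) * k
        + (-((l : ℤ) * ariU (l : ℤ) (2 * i + 1)) - (n0 : ℤ) ^ (i + 1)) := by
      have e : ariU (l : ℤ) (2 * i + 1 + 1) * k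
        + (-((l : ℤ) * ariU (l : ℤ) (2 * i + 1)) - (n0 : ℤ) ^ (i + 1))
          = (((k : ℤ) ^ 2) ^ (i + 1) - ((n0 : ℤ) * n1) ^ (i + 1))
            + (n0 : ℤ) ^ (i + 1) * ((n1 : ℤ) ^ (i + 1) - 1)
            - ((k : ℤ) ^ (2 * i + 1 + 1)
              - (ariU (l : ℤ) (2 * i + 1 + 1) * k - (l : ℤ) * ariU (l : ℤ) (2 * i + 1))) := by
        rw [mul_pow]; ring
      rw [e]
      exact dvd_sub (dvd_add e1 e2) hp
    unfold ariM
    generalize ariU (l : ℤ) (2 * i + 1 + 1) = A at e3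
    generalize (-((l : ℤ) * ariU (l : ℤ) (2 * i + 1)) - (n0 : ℤ) ^ (i + 1)) = b at e3
    have e : (l : ℤ) * A ^ 2 + A * b + b ^ 2
        = (A * k + b) * (A * (1 - k) + b) + A ^ 2 * ((k : ℤ) ^ 2 - k + l) := by ring
    rw [e]
    exact dvd_add (Dvd.dvd.mul_right e3 _) (Dvd.dvd.mul_left h1 _)
  have hpos := ariM_pos l hl i n0
  have hle : q ≤ (ariM (l : ℤ) i n0).natAbs := by
    have := Int.le_of_dvd hpos hM
    omega
  refine hle.trans ?_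
  have s1 : (ariM (l : ℤ) i n0).natAbs
      ≤ ∑ c ∈ Finset.range (C + 1), (ariM (l : ℤ) i c).natAbs :=
    Finset.single_le_sum (f := fun c => (ariM (l : ℤ) i c).natAbs) (fun _ _ => Nat.zero_le _)
      (Finset.mem_range.mpr (by omega))
  have s2 : (∑ c ∈ Finset.range (C + 1), (ariM (l : ℤ) i c).natAbs)
      ≤ ∑ i ∈ Finset.range (Φ + 1), ∑ c ∈ Finset.range (C + 1), (ariM (l : ℤ) i c).natAbs :=
    Finset.single_le_sum
      (f := fun i => ∑ c ∈ Finset.range (C + 1), (ariM (l : ℤ) i c).natAbs)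
      (fun _ _ => Nat.zero_le _) (Finset.mem_range.mpr (by omega))
  exact s1.trans s2

end Pool.Agent.DSub
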