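import Pool.Agent.Lib.MP_706923_coS.Spec

/-!
# Module B: bounded exponent
-/

set_option autoImplicit false

namespace Pool.Agent.DSub

/-- A translate of a difference set. -/
private theorem B_trans {G : Type} [CommGroup G] [Fintype G] [DecidableEq G] (D : Finset G)
    (l : ℕ) (h : IsDS D l) (x : G) :
    IsDS (Finset.univ.filter fun w => x * w ∈ D) l ∧
      (Finset.univ.filter fun w => x * w ∈ D).card = D.card := by
  constructor
  · intro g hg
    rw [← h g hg]
    refine Finset.card_nbij' (fun p => (x * p.1, x * p.2)) (fun p => (x⁻¹ * p.1, x⁻¹ * p.2))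
      ?_ ?_ ?_ ?_
    · rintro ⟨a, b⟩ hp
      rw [Finset.mem_coe, Finset.mem_filter, Finset.mem_product, Finset.mem_filter,
        Finset.mem_filter] at hp
      rw [Finset.mem_coe, Finset.mem_filter, Finset.mem_product]
      refine ⟨⟨hp.1.1.2, hp.1.2.2⟩, ?_⟩
      rw [← hp.2]
      change x * a * (x * b)⁻¹ = a * b⁻¹
      rw [mul_inv_rev, mul_comm x a, mul_assoc, mul_comm b⁻¹ x⁻¹, mul_inv_cancel_left]
    · rintro ⟨a, b⟩ hp
      rw [Finset.mem_coe, Finset.mem_filter, Finset.mem_product] at hp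
      rw [Finset.mem_coe, Finset.mem_filter, Finset.mem_product, Finset.mem_filter,
        Finset.mem_filter]
      refine ⟨⟨⟨Finset.mem_univ _, ?_⟩, ⟨Finset.mem_univ _, ?_⟩⟩, ?_⟩
      · change x * (x⁻¹ * a) ∈ D
        rw [mul_inv_cancel_left]
        exact hp.1.1
      · change x * (x⁻¹ * b) ∈ D
        rw [mul_inv_cancel_left]
        exact hp.1.2
      · rw [← hp.2]
        change x⁻¹ * a * (x⁻¹ * b)⁻¹ = a * b⁻¹
        rw [mul_inv_rev, inv_inv, mul_comm x⁻¹ a, mul_assoc, mul_comm b⁻¹ x, inv_mul_cancel_left]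
    · rintro ⟨a, b⟩ _
      change (x⁻¹ * (x * a), x⁻¹ * (x * b)) = (a, b)
      rw [inv_mul_cancel_left, inv_mul_cancel_left]
    · rintro ⟨a, b⟩ _
      change (x * (x⁻¹ * a), x * (x⁻¹ * b)) = (a, b)
      rw [mul_inv_cancel_left, mul_inv_cancel_left]
  · refine Finset.card_nbij' (fun a => x * a) (fun a => x⁻¹ * a) ?_ ?_ ?_ ?_
    · intro a ha
      rw [Finset.mem_coe, Finset.mem_filter] at ha
      exact ha.2
    · intro a ha
      rw [Finset.mem_coe, Finset.mem_filter]
      refine ⟨Finset.mem_univ _, ?_⟩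
      change x * (x⁻¹ * a) ∈ D
      rw [mul_inv_cancel_left]
      exact ha
    · intro a _
      change x⁻¹ * (x * a) = a
      rw [inv_mul_cancel_left]
    · intro a _
      change x * (x⁻¹ * a) = a
      rw [mul_inv_cancel_left]

open Classical in
/-- The pairs with quotient in a subgroup. -/
private theorem B_pairs {G : Type} [CommGroup G] [Fintype G] [DecidableEq G] (D : Finset G)
    (l : ℕ) (h : IsDS D l) (H : Subgroup G) :
    ((D ×ˢ D).filter (fun p => p.1 * p.2⁻¹ ∈ H ∧ p.1 * p.2⁻¹ ≠ 1)).card =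
      l * (Nat.card H - 1) := by
  set t : Finset G := Finset.univ.filter (fun g => g ∈ H ∧ g ≠ 1) with ht
  have h1 : Set.MapsTo (fun p : G × G => p.1 * p.2⁻¹)
      (((D ×ˢ D).filter (fun p => p.1 * p.2⁻¹ ∈ H ∧ p.1 * p.2⁻¹ ≠ 1) : Finset (G × G)) :
        Set (G × G)) (t : Set G) := by
    intro p hp
    rw [Finset.mem_coe, Finset.mem_filter] at hp
    rw [Finset.mem_coe, ht, Finset.mem_filter]
    exact ⟨Finset.mem_univ _, hp.2⟩
  rw [Finset.card_eq_sum_card_fiberwise h1]
  have h2 : ∀ g ∈ t, (((D ×ˢ D).filter (fun p => p.1 * p.2⁻¹ ∈ H ∧ p.1 * p.2⁻¹ ≠ 1)).filter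
      (fun p => p.1 * p.2⁻¹ = g)).card = l := by
    intro g hg
    rw [ht, Finset.mem_filter] at hg
    rw [← h g hg.2.2, Finset.filter_filter]
    congr 1
    apply Finset.filter_congr
    intro p _
    constructor
    · exact fun hp => hp.2
    · intro hp
      rw [hp]
      exact ⟨hg.2, rfl⟩
  rw [Finset.sum_congr rfl h2, Finset.sum_const, smul_eq_mul, mul_comm]
  congr 1
  have h3 : t = (Finset.univ.filter (fun g => g ∈ H)).erase 1 := by
    ext g
    rw [ht, Finset.mem_filter, Finset.mem_erase, Finset.mem_filter]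
    tauto
  rw [h3, Finset.card_erase_of_mem (by
    rw [Finset.mem_filter]
    exact ⟨Finset.mem_univ _, H.one_mem⟩)]
  congr 1
  rw [Nat.card_eq_fintype_card, ← Fintype.card_subtype]

private theorem B_num (k k₁ h v l : ℕ) (h8 : 8 ≤ k) (hk : 3 * k ≤ 4 * k₁) (hh : 1 ≤ h)
    (h1 : k₁ * k₁ - k₁ ≤ l * (h - 1)) (h2 : 2 * h ≤ v) (hl : l ≤ k)
    (h3 : k ^ 2 = (k - l) + l * v) (hl1 : 1 ≤ l) : False := by
  have hk1 : 1 ≤ k₁ := by omega
  have e1 : k₁ ≤ k₁ * k₁ := Nat.le_mul_of_pos_left k₁ hk1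
  have e2 : (k₁ : ℤ) * k₁ - k₁ ≤ l * (h - 1) := by
    have := h1
    zify [e1, hh] at this
    exact this
  have e3 : (k : ℤ) ^ 2 = (k - l) + l * v := by
    have := h3
    zify [hl] at this
    exact this
  have e4 : (l : ℤ) * (2 * h) ≤ l * v := by
    have : (2 : ℤ) * h ≤ v := by exact_mod_cast h2
    exact mul_le_mul_of_nonneg_left this (by positivity)
  have e5 : (0 : ℤ) ≤ 4 * k₁ - 3 * k := by
    have : (3 : ℤ) * k ≤ 4 * k₁ := by exact_mod_cast hk
    linarith
  have e6 : (8 : ℤ) ≤ k := by exact_mod_cast h8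
  have e7 : (0 : ℤ) ≤ (4 * k₁ - 3 * k) * (4 * k₁ + 3 * k - 4) :=
    mul_nonneg e5 (by linarith)
  have e8 : (0 : ℤ) ≤ (k - 8) * k := mul_nonneg (by linarith) (by linarith)
  have e9 : (1 : ℤ) ≤ l := by exact_mod_cast hl1
  nlinarith

theorem tB (h1 : S_Fix) (h2 : S_Ari) (h3 : S_Psh) : S_B := by
  classical
  intro l e hl he
  obtain ⟨B, hB⟩ := h2 l e (l ^ l) hl
  refine ⟨B, ?_⟩
  intro G _ _ _ N D hD hcop hN hbig
  have hN1 : 1 ≤ Nat.card N := Nat.card_pos
  have hl4 : 4 * l ≤ D.card := le_trans (Nat.le_mul_of_pos_right _ hN1) hbig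
  have hk8 : 8 ≤ D.card := by omega
  have hv : D.card ≤ Fintype.card G := Finset.card_le_univ D
  obtain ⟨hlk, hkk, hpsh⟩ := h3 G D l hD (by omega)
  obtain ⟨c1, c2, c3⟩ := hpsh G (MonoidHom.id G) (fun x => ⟨x, rfl⟩)
  have hker : Nat.card (MonoidHom.id G).ker = 1 := by
    have h4 : 0 < Fintype.card G := by omega
    apply Nat.eq_of_mul_eq_mul_right h4
    rw [one_mul]
    exact c1.symm
  rw [hker, mul_one] at c3
  set k : ℕ := D.card with hk
  set v : ℕ := Fintype.card G with hvdef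
  -- coprimality
  have hcom : ∀ q : ℕ, q.Prime → q ∣ v → ¬ q ∣ l := by
    intro q hq hqv hql
    have h5 := Nat.dvd_gcd hqv hql
    rw [Nat.Coprime] at hcop
    rw [hcop] at h5
    exact hq.one_lt.ne' (Nat.dvd_one.1 h5)
  have hkl : k = (k - l) + l := by omega
  have hvk : Nat.Coprime k v := by
    apply Nat.coprime_of_dvd
    intro q hq hqk hqv
    have h5 : q ∣ k - l := by
      have h6 : q ∣ (k - l) + l * v := by
        rw [← hkk]
        exact dvd_pow hqk two_ne_zero
      exact (Nat.dvd_add_left (dvd_mul_of_dvd_right hqv l)).1 h6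
    have h7 : q ∣ l := by
      rw [hkl] at hqk
      exact (Nat.dvd_add_right h5).1 hqk
    exact hcom q hq hqv h7
  have hvn : Nat.Coprime (k - l) v := by
    apply Nat.coprime_of_dvd
    intro q hq hqn hqv
    have h5 : q ∣ k ^ 2 := by
      rw [hkk]
      exact dvd_add hqn (dvd_mul_of_dvd_right hqv l)
    have h6 : q ∣ k := hq.dvd_of_dvd_pow h5
    have h7 : q ∣ l := by
      rw [hkl] at h6
      exact (Nat.dvd_add_right hqn).1 h6
    exact hcom q hq hqv h7
  have hn : 0 < k - l := by omega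
  obtain ⟨x, n0, n1, hn01, hn0, hfix, -⟩ := h1 G _ (k - l) l c3 hn (by omega)
    (by rw [c2]; exact hvk) hvn
  -- the translate
  obtain ⟨hDS, hDc⟩ := B_trans D l hD x
  set D' : Finset G := Finset.univ.filter (fun w => x * w ∈ D) with hD'
  have hmD : ∀ w, w ∈ D' ↔ x * w ∈ D := by
    intro w
    rw [hD', Finset.mem_filter]
    exact ⟨fun hw => hw.2, fun hw => ⟨Finset.mem_univ _, hw⟩⟩
  clear_value D'
  have hE : ∀ w : G, (D.filter fun d => (MonoidHom.id G) d = w).card = if w ∈ D then 1 else 0 := by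
    intro w
    change (D.filter fun d => d = w).card = _
    rw [Finset.filter_eq']
    split_ifs
    · exact Finset.card_singleton w
    · exact Finset.card_empty
  have hcl : ∀ w, w ∈ D' → w ^ n1 ∈ D' := by
    intro w hw
    rw [hmD] at hw ⊢
    have h5 := hfix w
    rw [hE, hE, if_pos hw] at h5
    by_contra h6
    rw [if_neg h6] at h5
    exact zero_ne_one h5
  have hcl2 : ∀ i : ℕ, ∀ w, w ∈ D' → w ^ (n1 ^ i) ∈ D' := by
    intro i
    induction i with
    | zero =>
      intro w hw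
      rw [pow_zero, pow_one]
      exact hw
    | succ i ih =>
      intro w hw
      rw [pow_succ, pow_mul]
      exact hcl _ (ih w hw)
  have hn1v : Nat.Coprime n1 v := Nat.Coprime.coprime_dvd_left (Dvd.intro_left n0 hn01.symm) hvn
  have hn1 : 0 < n1 := by
    rcases Nat.eq_zero_or_pos n1 with h5 | h5
    · rw [h5, mul_zero] at hn01
      omega
    · exact h5
  set e' : ℕ := Nat.gcd e v with he'
  have he'0 : 0 < e' := Nat.gcd_pos_of_pos_left v he
  have he'e : e' ≤ e := Nat.le_of_dvd he (Nat.gcd_dvd_left e v)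
  have hne : Nat.Coprime n1 e' := Nat.Coprime.coprime_dvd_right (Nat.gcd_dvd_right e v) hn1v
  set φ : ℕ := Nat.totient e' with hφ
  have hφ1 : 1 ≤ φ := Nat.totient_pos.2 he'0
  have hφe : φ ≤ e := le_trans (Nat.totient_le e') he'e
  set t : ℕ := n1 ^ φ with ht
  have ht1 : 1 ≤ t := Nat.one_le_pow _ _ hn1
  have hdt : e' ∣ t - 1 := (Nat.modEq_iff_dvd' ht1).1 (Nat.ModEq.pow_totient hne).symm
  have hNe : ∀ w : G, w ^ (t - 1) ∈ N := by
    intro w
    obtain ⟨c, hc⟩ := hdt
    have h5 : w ^ e' ∈ N := by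
      rw [← QuotientGroup.eq_one_iff, QuotientGroup.mk_pow, he', pow_gcd_eq_one]
      constructor
      · rw [← QuotientGroup.mk_pow, QuotientGroup.eq_one_iff]
        exact hN w
      · rw [← QuotientGroup.mk_pow, QuotientGroup.eq_one_iff, hvdef, pow_card_eq_one]
        exact N.one_mem
    rw [hc, pow_mul]
    exact N.pow_mem h5 c
  -- the subgroup
  obtain ⟨H, hmH⟩ : ∃ H : Subgroup G, ∀ w : G, w ∈ H ↔ w ^ (t - 1) = 1 :=
    ⟨(powMonoidHom (t - 1) : G →* G).ker, fun w => Iff.rfl⟩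
  have hwt : ∀ w : G, w ^ t = w ^ (t - 1) * w := by
    intro w
    rw [← pow_succ, Nat.sub_add_cancel ht1]
  set D1 : Finset G := D'.filter (fun w => w ∈ H) with hD1
  have hb1 : (D'.filter (fun w => ¬ w ∈ H)).card ≤ l * (Nat.card N - 1) := by
    rw [← B_pairs D' l hDS N]
    refine Finset.card_le_card_of_injOn (fun d => (d, d ^ t)) ?_ ?_
    · intro d hd
      rw [Finset.mem_coe, Finset.mem_filter] at hd
      rw [Finset.mem_coe, Finset.mem_filter, Finset.mem_product]
      have h6 : d * (d ^ t)⁻¹ = (d ^ (t - 1))⁻¹ := by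
        rw [hwt, mul_inv_rev, mul_inv_cancel_left]
      refine ⟨⟨hd.1, hcl2 φ d hd.1⟩, ?_, ?_⟩
      · change d * (d ^ t)⁻¹ ∈ N
        rw [h6]
        exact N.inv_mem (hNe d)
      · change d * (d ^ t)⁻¹ ≠ 1
        rw [h6]
        intro h7
        exact hd.2 ((hmH d).2 (inv_eq_one.1 h7))
    · intro a _ b _ hab
      exact congrArg Prod.fst hab
  have hsum := Finset.card_filter_add_card_filter_not (s := D') (fun w => w ∈ H)
  have hN2 : l * (Nat.card N - 1) ≤ l * Nat.card N := Nat.mul_le_mul_left _ (Nat.sub_le _ _)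
  have hbig' : 4 * (l * Nat.card N) ≤ k := by
    rw [← mul_assoc]
    exact hbig
  have hk1 : 3 * k ≤ 4 * D1.card := by
    have h5 : D1.card + (D'.filter (fun w => ¬ w ∈ H)).card = k := by
      rw [hk, ← hDc]
      exact hsum
    omega
  have hoff : D1.card * D1.card - D1.card ≤ l * (Nat.card H - 1) := by
    rw [← B_pairs D' l hDS H, ← Finset.offDiag_card]
    apply Finset.card_le_card
    rintro ⟨a, b⟩ hp
    rw [Finset.mem_offDiag, hD1, Finset.mem_filter, Finset.mem_filter] at hp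
    rw [Finset.mem_filter, Finset.mem_product]
    refine ⟨⟨hp.1.1, hp.2.1.1⟩, H.mul_mem hp.1.2 (H.inv_mem hp.2.1.2), ?_⟩
    intro h6
    exact hp.2.2 (mul_inv_eq_one.1 h6)
  have hH1 : 1 ≤ Nat.card H := Nat.card_pos
  have hHtop : H = ⊤ := by
    by_contra hne'
    have h5 : 1 < H.index := Subgroup.one_lt_index_of_ne_top hne'
    have h6 := Subgroup.card_mul_index H
    rw [Nat.card_eq_fintype_card (α := G), ← hvdef] at h6
    have h7 : 2 * Nat.card H ≤ v := by
      rw [← h6, mul_comm]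
      exact Nat.mul_le_mul_left _ h5
    exact B_num k D1.card (Nat.card H) v l hk8 hk1 hH1 hoff h7 hlk hkk (by omega)
  have hexp : Monoid.exponent G ∣ t - 1 := by
    apply Monoid.exponent_dvd_of_forall_pow_eq_one
    intro g
    rw [← hmH, hHtop]
    exact Subgroup.mem_top g
  have hexv : Monoid.exponent G ∣ v := Group.exponent_dvd_card
  have hkz : (k : ℤ) ^ 2 = (k - l) + l * v := by
    have h5 := hkk
    zify [hlk] at h5
    exact h5
  have hnz : ((n0 : ℤ) * n1) = k - l := by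
    have h5 := hn01
    zify [hlk] at h5
    exact h5.symm
  have hqv : ((Monoid.exponent G : ℕ) : ℤ) ∣ (l : ℤ) * v :=
    dvd_mul_of_dvd_right (by exact_mod_cast hexv) _
  refine hB φ n0 n1 k (Monoid.exponent G) hφ1 hφe hn0 ?_ ?_ ?_
  · have h5 : (k : ℤ) ^ 2 - k + l = l * v := by linarith
    rw [h5]
    exact hqv
  · have h5 : (k : ℤ) ^ 2 - n0 * n1 = l * v := by linarith
    rw [h5]
    exact hqv
  · have h5 : ((Monoid.exponent G : ℕ) : ℤ) ∣ ((t - 1 : ℕ) : ℤ) := by exact_mod_cast hexp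
    have h6 : ((t - 1 : ℕ) : ℤ) = (n1 : ℤ) ^ φ - 1 := by
      rw [Nat.cast_sub ht1, ht]
      push_cast
      rfl
    rw [← h6]
    exact h5

end Pool.Agent.DSub
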