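import Pool.Agent.Lib.MP_706923_coS.Spec

/-!
# MP_706923_co, package S: not all small primes divide `n`
-/

set_option autoImplicit false

namespace Pool.Agent.DSub

section

variable {G : Type} [CommGroup G] [Fintype G] [DecidableEq G]

private theorem C_trans {D : Finset G} {l : ℕ} (hD : IsDS D l) (x : G) :
    IsDS (Finset.univ.filter fun w => x * w ∈ D) l := by
  intro g hg
  rw [← hD g hg]
  have e1 : ∀ a b : G, (x * a) * (x * b)⁻¹ = a * b⁻¹ := by
    intro a b
    rw [← div_eq_mul_inv, mul_div_mul_left_eq_div, div_eq_mul_inv]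
  have e2 : ∀ a b : G, (x⁻¹ * a) * (x⁻¹ * b)⁻¹ = a * b⁻¹ := by
    intro a b
    rw [← div_eq_mul_inv, mul_div_mul_left_eq_div, div_eq_mul_inv]
  refine Finset.card_bij' (fun p _ => (x * p.1, x * p.2)) (fun p _ => (x⁻¹ * p.1, x⁻¹ * p.2))
    ?_ ?_ ?_ ?_
  · intro p hp
    simp only [Finset.mem_filter, Finset.mem_product, Finset.mem_univ, true_and] at hp ⊢
    exact ⟨hp.1, by rw [e1]; exact hp.2⟩
  · intro p hp
    simp only [Finset.mem_filter, Finset.mem_product, Finset.mem_univ, true_and] at hp ⊢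
    exact ⟨by rw [mul_inv_cancel_left, mul_inv_cancel_left]; exact hp.1, by rw [e2]; exact hp.2⟩
  · intro p _
    simp
  · intro p _
    simp

private theorem C_card (D : Finset G) (x : G) :
    (Finset.univ.filter fun w => x * w ∈ D).card = D.card := by
  refine Finset.card_bij' (fun p _ => x * p) (fun p _ => x⁻¹ * p) ?_ ?_ ?_ ?_
  · intro p hp
    exact (Finset.mem_filter.1 hp).2
  · intro p hp
    rw [Finset.mem_filter]
    exact ⟨Finset.mem_univ _, by rw [mul_inv_cancel_left]; exact hp⟩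
  · intro p _
    simp
  · intro p _
    simp

omit [Fintype G] in
/-- All the elements of `D` have order dividing `l! ^ 2`. -/
private theorem C_pow {D : Finset G} {l : ℕ} (hD : IsDS D l)
    (hK : ∀ i ≤ l + 1, ∀ w ∈ D, w ^ (1 + i * l.factorial) ∈ D) {d : G} (hd : d ∈ D) :
    d ^ (l.factorial * l.factorial) = 1 := by
  by_cases h : d ^ l.factorial = 1
  · rw [pow_mul, h, one_pow]
  have hc := hD _ h
  have hmaps : ∀ i ∈ Finset.range (l + 1),
      (d ^ (1 + (i + 1) * l.factorial), d ^ (1 + i * l.factorial)) ∈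
        (D ×ˢ D).filter (fun p => p.1 * p.2⁻¹ = d ^ l.factorial) := by
    intro i hi
    rw [Finset.mem_range] at hi
    rw [Finset.mem_filter, Finset.mem_product]
    refine ⟨⟨hK _ (by omega) d hd, hK _ (by omega) d hd⟩, ?_⟩
    simp only
    rw [mul_inv_eq_iff_eq_mul, ← pow_add]
    congr 1
    ring
  have hlt : ((D ×ˢ D).filter (fun p => p.1 * p.2⁻¹ = d ^ l.factorial)).card <
      (Finset.range (l + 1)).card := by
    rw [hc, Finset.card_range]
    exact Nat.lt_succ_self l
  obtain ⟨i, hi, j, hj, hij, heq⟩ := Finset.exists_ne_map_eq_of_card_lt_of_maps_to hlt hmaps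
  rw [Finset.mem_range] at hi hj
  have key : ∀ i j : ℕ, i < l + 1 → j < l + 1 → i < j →
      d ^ (1 + i * l.factorial) = d ^ (1 + j * l.factorial) →
      d ^ (l.factorial * l.factorial) = 1 := by
    intro i j _ hj hlt h1
    obtain ⟨m, rfl⟩ : ∃ m, j = i + m := ⟨j - i, by omega⟩
    have h2 : d ^ (m * l.factorial) = 1 := by
      have h3 : 1 + (i + m) * l.factorial = (1 + i * l.factorial) + m * l.factorial := by ring
      rw [h3, pow_add d (1 + i * l.factorial) (m * l.factorial)] at h1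
      exact (mul_eq_left.1 h1.symm)
    obtain ⟨c, hc⟩ : m ∣ l.factorial := Nat.dvd_factorial (by omega) (by omega)
    have h4 : l.factorial * l.factorial = (m * l.factorial) * c := by
      nth_rw 1 [hc]
      ring
    rw [h4, pow_mul, h2, one_pow]
  have h1 := (Prod.mk.inj heq).2
  rcases lt_or_gt_of_ne hij with h2 | h2
  · exact key i j hi hj h2 h1
  · exact key j i hj hi h2 h1.symm

omit [Fintype G] in
private theorem C_all {D : Finset G} {l : ℕ} (hl : 1 ≤ l) (hD : IsDS D l) {N : ℕ}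
    (h : ∀ d ∈ D, d ^ N = 1) (g : G) : g ^ N = 1 := by
  by_cases hg : g = 1
  · rw [hg, one_pow]
  have h1 := hD g hg
  have h2 : 0 < ((D ×ˢ D).filter (fun p => p.1 * p.2⁻¹ = g)).card := by rw [h1]; exact hl
  obtain ⟨p, hp⟩ := Finset.card_pos.1 h2
  rw [Finset.mem_filter, Finset.mem_product] at hp
  rw [← hp.2, mul_pow, inv_pow, h _ hp.1.1, h _ hp.1.2, inv_one, mul_one]

omit [Fintype G] in
private theorem C_ind (D : Finset G) (w : G) :
    (D.filter fun d => (MonoidHom.id G) d = w).card = if w ∈ D then 1 else 0 := by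
  split_ifs with h
  · rw [Finset.card_eq_one]
    refine ⟨w, ?_⟩
    ext a
    rw [Finset.mem_filter, Finset.mem_singleton, MonoidHom.id_apply]
    exact ⟨fun h => h.2, fun h' => ⟨h' ▸ h, h'⟩⟩
  · rw [Finset.card_eq_zero, Finset.filter_eq_empty_iff]
    intro a ha h'
    rw [MonoidHom.id_apply] at h'
    exact h (h' ▸ ha)

end

private theorem C_not_dvd {l p : ℕ} (hp : p.Prime) (hpl : p ≤ l) {m : ℕ}
    (h : p ∣ m) (h1 : ∃ c : ℕ, m = 1 + c * l.factorial ∨ m + 1 = c * l.factorial) : False := by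
  have h2 : p ∣ l.factorial := hp.dvd_factorial.2 hpl
  obtain ⟨c, hc | hc⟩ := h1
  · rw [hc] at h
    have h3 : p ∣ 1 := (Nat.dvd_add_left (h2.mul_left c)).1 h
    exact hp.one_lt.ne' (Nat.dvd_one.1 h3)
  · have h3 : p ∣ m + 1 := by rw [hc]; exact h2.mul_left c
    have h4 : p ∣ 1 := (Nat.dvd_add_right h).1 h3
    exact hp.one_lt.ne' (Nat.dvd_one.1 h4)

/-- The coprimality of the order with `k` and `n`. -/
private theorem C_cop {k l v : ℕ} (hlk : l ≤ k) (hc : Nat.Coprime v l)
    (h : k ^ 2 = (k - l) + l * v) : Nat.Coprime k v ∧ Nat.Coprime (k - l) v := by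
  have hk : (k - l) + l = k := Nat.sub_add_cancel hlk
  refine ⟨Nat.Coprime.symm (Nat.coprime_of_dvd fun q hq h1 h2 => ?_),
    Nat.Coprime.symm (Nat.coprime_of_dvd fun q hq h1 h2 => ?_)⟩
  · have h3 : q ∣ (k - l) + l * v := by rw [← h]; exact dvd_pow h2 two_ne_zero
    have h4 : q ∣ k - l := (Nat.dvd_add_left (h1.mul_left l)).1 h3
    have h5 : q ∣ l := (Nat.dvd_add_right h4).1 (by rw [hk]; exact h2)
    exact Nat.Prime.not_coprime_iff_dvd.2 ⟨q, hq, h1, h5⟩ hc
  · have h3 : q ∣ k ^ 2 := by rw [h]; exact dvd_add h2 (h1.mul_left l)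
    have h4 : q ∣ k := hq.dvd_of_dvd_pow h3
    have h5 : q ∣ l := (Nat.dvd_add_right h2).1 (by rw [hk]; exact h4)
    exact Nat.Prime.not_coprime_iff_dvd.2 ⟨q, hq, h1, h5⟩ hc

theorem tC (h1 : S_Fix) (h2 : S_Sym) (h3 : S_Psh) : S_C := by
  intro l hl
  refine ⟨l.factorial * l.factorial + (l + 1) * l.factorial + 2 * l ^ 2 + 4, ?_⟩
  intro G _ _ _ D hD hcop hlD
  by_contra hcon
  have hcon' : ∀ p : ℕ, p.Prime → l < p →
      p ≤ l.factorial * l.factorial + (l + 1) * l.factorial + 2 * l ^ 2 + 4 → p ∣ D.card - l := by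
    intro p hp hlp hpB
    by_contra h
    exact hcon ⟨p, hp, hlp, hpB, h⟩
  clear hcon
  have hDG : D.card ≤ Fintype.card G := Finset.card_le_univ D
  have hG2 : 2 ≤ Fintype.card G := by omega
  obtain ⟨-, hk2, hP⟩ := h3 G D l hD hG2
  obtain ⟨-, hsum, hCor⟩ := hP G (MonoidHom.id G) Function.surjective_id
  have hker : Nat.card (MonoidHom.id G).ker = 1 := by
    have : (MonoidHom.id G).ker = ⊥ := (MonoidHom.ker_eq_bot_iff _).2 Function.injective_id
    rw [this]
    simp
  rw [hker, mul_one] at hCor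
  obtain ⟨hc1, hc2⟩ := C_cop hlD.le hcop hk2
  obtain ⟨x, n0, n1, -, -, -, hfix⟩ := h1 G _ (D.card - l) l hCor (by omega) (by omega)
    (by rw [hsum]; exact hc1) hc2
  set D' : Finset G := Finset.univ.filter fun w => x * w ∈ D with hD'
  have hDS : IsDS D' l := C_trans hD x
  have hcard : D'.card = D.card := C_card D x
  -- the multipliers
  have hmul : ∀ m : ℕ, 0 < m →
      m ≤ l.factorial * l.factorial + (l + 1) * l.factorial + 2 * l ^ 2 + 4 →
      (∃ c : ℕ, m = 1 + c * l.factorial ∨ m + 1 = c * l.factorial) →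
      ∀ w ∈ D', w ^ m ∈ D' := by
    intro m hm hmB hmc w hw
    have h4 := hfix m hm (fun p hp hpm => ?_) w
    · rw [C_ind, C_ind] at h4
      rw [hD', Finset.mem_filter] at hw ⊢
      rw [if_pos hw.2] at h4
      refine ⟨Finset.mem_univ _, ?_⟩
      by_contra h5
      rw [if_neg h5] at h4
      exact absurd h4 (by norm_num)
    · have hpl : l < p := by
        by_contra h
        exact C_not_dvd hp (not_lt.1 h) hpm hmc
      exact ⟨hpl, hcon' p hp hpl ((Nat.le_of_dvd hm hpm).trans hmB)⟩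
  have hpow : ∀ d ∈ D', d ^ (l.factorial * l.factorial) = 1 := by
    intro d hd
    refine C_pow hDS (fun i hi w hw => hmul _ (by omega) ?_ ⟨i, Or.inl rfl⟩ w hw) hd
    have : i * l.factorial ≤ (l + 1) * l.factorial := Nat.mul_le_mul_right _ hi
    omega
  have hall : ∀ g : G, g ^ (l.factorial * l.factorial) = 1 := C_all hl hDS hpow
  rcases Nat.lt_or_ge l 2 with hl2 | hl2
  · have hl1 : l = 1 := by omega
    subst hl1
    have h5 : ∀ g : G, g = 1 := by
      intro g
      have := hall g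
      rwa [Nat.factorial_one, mul_one, pow_one] at this
    have h6 : Fintype.card G ≤ 1 := Fintype.card_le_one_iff.2 fun a b => by rw [h5 a, h5 b]
    omega
  · have hL2 : 2 ≤ l.factorial := hl2.trans (Nat.self_le_factorial l)
    have hLL : 4 ≤ l.factorial * l.factorial := Nat.mul_le_mul hL2 hL2
    have hsym : ∀ g : G, g ∈ D' → g⁻¹ ∈ D' := by
      intro g hg
      have h5 := hmul (l.factorial * l.factorial - 1) (by omega) (by omega)
        ⟨l.factorial, Or.inr (by omega)⟩ g hg
      have h6 : g ^ (l.factorial * l.factorial - 1) = g⁻¹ := by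
        rw [eq_inv_iff_mul_eq_one, ← pow_succ, Nat.sub_add_cancel (by omega)]
        exact hall g
      rwa [h6] at h5
    have hu : ∃ u : G, u ∉ D' := by
      by_contra h
      push Not at h
      have h5 : D'.card = Fintype.card G := by
        rw [Finset.eq_univ_iff_forall.2 h, Finset.card_univ]
      rw [hcard] at h5
      rw [← h5] at hk2
      obtain ⟨m, hm⟩ : ∃ m, D.card = m + l := ⟨D.card - l, by omega⟩
      rw [hm, Nat.add_sub_cancel] at hk2
      have h6 : 0 < m := by omega
      nlinarith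
    have hdvd := h2 G D' l hDS (by rw [hcard]; exact hlD) hsym hu
    rw [hcard] at hdvd
    have hn : D.card - l ≤ l ^ 2 := Nat.le_of_dvd (by positivity) hdvd
    obtain ⟨p, hp, hp1, hp2⟩ := Nat.exists_prime_lt_and_le_two_mul (l ^ 2) (by positivity)
    have hlp : l < p := by nlinarith
    have h7 := hcon' p hp hlp (by omega)
    have h8 := Nat.le_of_dvd (by omega) h7
    omega

end Pool.Agent.DSub
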