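import Pool.Agent.Lib.MP_706923_coS.Spec

/-!
# MP_706923_co, package S, `Dec`: the bad part of `n` is bounded
-/

set_option autoImplicit false

namespace Pool.Agent.DSub

theorem tDec : S_Dec := by
  intro n μ hn hμ
  classical
  refine ⟨∏ p ∈ n.primeFactors.filter (fun p => p ^ n.factorization p ≤ μ),
    p ^ n.factorization p, ∏ p ∈ n.primeFactors.filter (fun p => ¬ p ^ n.factorization p ≤ μ),
    p ^ n.factorization p, ?_, ?_, ?_⟩
  · rw [Finset.prod_filter_mul_prod_filter_not]
    exact (Nat.prod_factorization_pow_eq_self hn.ne').symm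
  · have hcard : (n.primeFactors.filter (fun p => p ^ n.factorization p ≤ μ)).card ≤ μ := by
      have hsub : n.primeFactors.filter (fun p => p ^ n.factorization p ≤ μ) ⊆
          Finset.Icc 1 μ := by
        intro p hp
        rw [Finset.mem_filter, Nat.mem_primeFactors] at hp
        obtain ⟨⟨hpp, hpn, _⟩, hle⟩ := hp
        rw [Finset.mem_Icc]
        have hv : 1 ≤ n.factorization p := (hpp.dvd_iff_one_le_factorization hn.ne').1 hpn
        refine ⟨hpp.one_lt.le, le_trans ?_ hle⟩
        exact Nat.le_self_pow (by omega) p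
      have := Finset.card_le_card hsub
      simpa using this
    calc ∏ p ∈ n.primeFactors.filter (fun p => p ^ n.factorization p ≤ μ), p ^ n.factorization p
        ≤ ∏ _p ∈ n.primeFactors.filter (fun p => p ^ n.factorization p ≤ μ), μ :=
          Finset.prod_le_prod' fun p hp => (Finset.mem_filter.1 hp).2
      _ = μ ^ (n.primeFactors.filter (fun p => p ^ n.factorization p ≤ μ)).card :=
          Finset.prod_const _
      _ ≤ μ ^ μ := Nat.pow_le_pow_right hμ hcard
  · intro p hp hdvd
    rw [Prime.dvd_finsetProd_iff hp.prime] at hdvd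
    obtain ⟨q, hq, hpq⟩ := hdvd
    rw [Finset.mem_filter, Nat.mem_primeFactors] at hq
    obtain ⟨⟨hqp, _, _⟩, hle⟩ := hq
    have heq : p = q := (Nat.prime_dvd_prime_iff_eq hp hqp).1 (hp.dvd_of_dvd_pow hpq)
    subst heq
    exact ⟨n.factorization p, Nat.ordProj_dvd n p, not_le.1 hle⟩

end Pool.Agent.DSub
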