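import Mathlib

/-!
# MP_706923_co, package S (multipliers for a fixed lambda): definitions
-/

set_option autoImplicit false

namespace Pool.Agent.DSub

/-- `D` is a difference set with the parameter `l` (the condition of the problem file). -/
def IsDS {G : Type} [Group G] [DecidableEq G] (D : Finset G) (l : ℕ) : Prop :=
  ∀ g : G, g ≠ 1 → ((D ×ˢ D).filter (fun p => p.1 * p.2⁻¹ = g)).card = l

/-- The autocorrelation of `E` is `n + μ` at `1` and `μ` elsewhere: `E E* = n + μ W` in the group
ring. -/
structure Cor {W : Type} [CommGroup W] [Fintype W] (E : W → ℕ) (n μ : ℕ) : Prop where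
  one : ∑ w, E w * E w = n + μ
  ne : ∀ g : W, g ≠ 1 → ∑ w, E (w * g) * E w = μ

/-- `p` is a prime which is prime to the order of `W`, and `μ` is smaller than a power of `p` which
divides `n`. -/
structure Gd (W : Type) [Fintype W] (n μ p : ℕ) : Prop where
  pr : p.Prime
  nd : ¬ p ∣ Fintype.card W
  big : ∃ b : ℕ, p ^ b ∣ n ∧ μ < p ^ b

end Pool.Agent.DSub
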