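import Pool.Agent.Lib.MP_706923_coS.Spec

/-!
# MP_706923_co, package S, `Fix`: a translate fixed by many power maps
-/

set_option autoImplicit false

namespace Pool.Agent.DSub

private theorem fix_aux {W : Type} [CommGroup W] [Fintype W] (E : W → ℕ) (n μ : ℕ) (x : W)
    (h : ∀ p : ℕ, Gd W n μ p → ∀ w : W, E (x * w ^ p) = E (x * w)) :
    ∀ m : ℕ, 0 < m → (∀ p : ℕ, p.Prime → p ∣ m → Gd W n μ p) →
      ∀ w : W, E (x * w ^ m) = E (x * w) := by
  intro m
  induction m using Nat.strong_induction_on with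
  | _ m ih =>
    intro hm hp w
    by_cases h1 : m = 1
    · rw [h1, pow_one]
    have hpr : m.minFac.Prime := Nat.minFac_prime h1
    obtain ⟨m', hm'⟩ := Nat.minFac_dvd m
    have hm'0 : 0 < m' := by
      rcases Nat.eq_zero_or_pos m' with h0 | h0
      · rw [h0, mul_zero] at hm'
        omega
      · exact h0
    have hlt : m' < m := by
      conv_rhs => rw [hm']
      have := hpr.two_le
      nlinarith
    have hw : w ^ m = (w ^ m') ^ m.minFac := by
      rw [← pow_mul, mul_comm m', ← hm']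
    rw [hw, h _ (hp _ hpr (Nat.minFac_dvd m))]
    refine ih m' hlt hm'0 (fun p hpp hpd => hp p hpp ?_) w
    rw [hm']
    exact hpd.mul_left _

theorem tFix (h1 : S_Tra) (h2 : S_Dec) : S_Fix := by
  intro W _ _ E n μ hE hn hμ hcop hnW
  obtain ⟨x, hx⟩ := h1 W E n μ hE hn hcop
  obtain ⟨n0, n1, hnn, hn0, hn1⟩ := h2 n μ hn hμ
  have hnd : ∀ p : ℕ, p.Prime → p ∣ n → ¬ p ∣ Fintype.card W := by
    intro p hp hpn hpW
    have := Nat.dvd_gcd hpn hpW
    rw [Nat.Coprime] at hnW
    rw [hnW] at this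
    exact hp.one_lt.ne' (Nat.dvd_one.1 this)
  refine ⟨x, n0, n1, hnn, hn0, ?_, ?_⟩
  · refine fix_aux E n μ x hx n1 ?_ ?_
    · rcases Nat.eq_zero_or_pos n1 with h0 | h0
      · rw [h0, mul_zero] at hnn
        omega
      · exact h0
    · intro p hp hpn
      exact ⟨hp, hnd p hp (hnn ▸ hpn.mul_left n0), hn1 p hp hpn⟩
  · intro m hm hpm
    refine fix_aux E n μ x hx m hm fun p hp hpd => ?_
    obtain ⟨ha, hb⟩ := hpm p hp hpd
    exact ⟨hp, hnd p hp hb, 1, by rwa [pow_one], by rwa [pow_one]⟩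

end Pool.Agent.DSub
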