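import Pool.Agent.Lib.MP_706923_coS.Spec

/-!
# MP_706923_co, package S: Frobenius lifts
-/

set_option autoImplicit false

namespace Pool.Agent.DSub

private theorem fr_tr {R : Type} [CommRing R] {d x y z : R} (h1 : d ∣ x - y) (h2 : d ∣ y - z) :
    d ∣ x - z := by
  have h := dvd_add h1 h2
  rwa [sub_add_sub_cancel] at h

private theorem fr_pow {R : Type} [CommRing R] {d x y : R} (h : d ∣ x - y) (n : ℕ) :
    d ∣ x ^ n - y ^ n := h.trans (sub_dvd_pow_sub_pow x y n)

/-- Idempotents modulo `d`. -/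
private theorem fr_idem {R : Type} [CommRing R] {d e : R} (h : d ∣ e ^ 2 - e) (i : ℕ) :
    d ∣ e ^ (i + 1) - e := by
  induction i with
  | zero => rw [zero_add, pow_one, sub_self]; exact dvd_zero d
  | succ i ih =>
    refine fr_tr (y := e ^ 2) ?_ h
    rw [show e ^ (i + 1 + 1) - e ^ 2 = (e ^ (i + 1) - e) * e by ring]
    exact ih.mul_right e

theorem tFrob : S_Frob := by
  intro R _ p hp htf σ hσ f hf hid
  have hit : ∀ (i : ℕ) (x : R), (p : R) ∣ σ^[i] x - x ^ p ^ i := by
    intro i x
    induction i with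
    | zero => rw [Function.iterate_zero_apply, pow_zero, pow_one, sub_self]; exact dvd_zero _
    | succ i ih =>
      rw [Function.iterate_succ_apply']
      refine fr_tr (hσ _) ?_
      rw [pow_succ p i, pow_mul]
      exact fr_pow ih p
  obtain ⟨q, hq⟩ : ∃ q, p ^ f = q + 2 :=
    ⟨p ^ f - 2, by have := Nat.one_lt_pow hf.ne' hp.one_lt; omega⟩
  have hQ : ∀ x : R, (p : R) ∣ x ^ (q + 2) - x := by
    intro x
    have h := hit f x
    rw [hid, hq] at h
    rw [← neg_sub]
    exact h.neg_right
  intro b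
  induction b with
  | zero => intro a c _; rw [pow_zero]; exact one_dvd _
  | succ b ih =>
    intro a c hac
    obtain ⟨y, hy⟩ : ∃ y, y = a ^ p ^ b := ⟨_, rfl⟩
    obtain ⟨e, he⟩ : ∃ e, e = y ^ (q + 1) := ⟨_, rfl⟩
    have hyQ : (p : R) ^ (b + 1) ∣ y ^ (q + 2) - y := by
      have h := dvd_sub_pow_of_dvd_sub (hQ a) b
      rwa [← pow_mul, mul_comm, pow_mul, ← hy] at h
    have he2 : (p : R) ^ (b + 1) ∣ e ^ 2 - e := by
      have h := hyQ.mul_right (y ^ q)
      rw [he]
      convert h using 1
      ring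
    obtain ⟨r, hr⟩ : ∃ r, p = r + 1 := ⟨p - 1, by have := hp.one_lt; omega⟩
    have hσe : (p : R) ^ (b + 1) ∣ e - σ e := by
      have h1 : (p : R) ^ (b + 1) ∣ σ y - y ^ p := by
        have h := dvd_sub_pow_of_dvd_sub (hσ a) b
        rw [← pow_mul a, mul_comm p, pow_mul, ← hy] at h
        rw [hy, map_pow, ← hy]
        exact h
      have h2 : (p : R) ^ (b + 1) ∣ σ e - e ^ p := by
        have h := fr_pow h1 (q + 1)
        rw [← map_pow, ← pow_mul, mul_comm p, pow_mul, ← he] at h
        exact h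
      have h3 : (p : R) ^ (b + 1) ∣ e ^ p - e := by
        have h := fr_idem he2 r
        rwa [← hr] at h
      rw [← neg_sub]
      exact (fr_tr h2 h3).neg_right
    have ha1 : ∀ m : ℕ, (p : R) ∣ a * a ^ ((q + 1) * m) - a := by
      intro m
      induction m with
      | zero => rw [mul_zero, pow_zero, mul_one, sub_self]; exact dvd_zero _
      | succ m ih' =>
        have h := ih'.mul_right (a ^ (q + 1))
        refine fr_tr ?_ (hQ a)
        convert h using 1
        ring
    have hea : e = a ^ ((q + 1) * p ^ b) := by rw [he, hy, ← pow_mul, mul_comm]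
    obtain ⟨a1, ha⟩ : (p : R) ∣ a * (1 - e) := by
      have h := (ha1 (p ^ b)).neg_right
      rw [← hea] at h
      convert h using 1
      ring
    obtain ⟨m, hm⟩ : ∃ m, (q + 1) * p ^ b = m + 1 := by
      have h : 0 < (q + 1) * p ^ b := Nat.mul_pos (Nat.succ_pos _) (pow_pos hp.pos _)
      exact ⟨(q + 1) * p ^ b - 1, by omega⟩
    have hea' : e = a * a ^ m := by rw [hea, hm, pow_succ']
    have hcan : (p : R) ^ b ∣ a1 * c := by
      have h : (p : R) ^ (b + 1) ∣ p * (a1 * c) := by
        have h := hac.mul_right (1 - e)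
        rwa [show a * c * (1 - e) = a * (1 - e) * c by ring, ha, mul_assoc] at h
      obtain ⟨d, hd⟩ := h
      refine ⟨d, sub_eq_zero.1 (htf _ ?_)⟩
      rw [mul_sub, hd]
      ring
    have h1 : (p : R) ^ (b + 1) ∣ p * (σ a1 * c) := by
      rw [pow_succ']
      exact mul_dvd_mul_left _ (ih a1 c hcan)
    have h2 : (p : R) * (σ a1 * c) = σ a * (1 - σ e) * c := by
      have h := congrArg σ ha
      rw [map_mul, map_mul, map_sub, map_one, map_natCast] at h
      rw [h]
      ring
    have h3 : σ a * c = σ a * a ^ m * (a * c) + (σ a * (1 - σ e) * c - σ a * c * (e - σ e)) := by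
      rw [hea']
      ring
    rw [h3]
    refine dvd_add (hac.mul_left _) (dvd_sub ?_ (hσe.mul_left _))
    rw [← h2]
    exact h1

end Pool.Agent.DSub
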