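import Pool.Agent.Lib.MP_706923_coS.Spec

/-!
# The second multiplier theorem for a power of one prime
-/

set_option autoImplicit false

namespace Pool.Agent.DSub

section Coef

variable {W : Type} [CommGroup W]

private theorem mul_ext {x y : MonoidAlgebra ℤ W} (h : ∀ g, x.coeff g = y.coeff g) : x = y :=
  MonoidAlgebra.coeff_injective (Finsupp.ext h)

private theorem mul_int (z : ℤ) (x : MonoidAlgebra ℤ W) (g : W) :
    ((z : MonoidAlgebra ℤ W) * x).coeff g = z * x.coeff g := by
  rw [MonoidAlgebra.intCast_def, MonoidAlgebra.coeff_single_mul_apply, inv_one, one_mul]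
  rfl

private theorem mul_one' (g : W) [Decidable (g = 1)] :
    ((1 : MonoidAlgebra ℤ W)).coeff g = if g = 1 then 1 else 0 := by
  classical
  rw [MonoidAlgebra.one_def, MonoidAlgebra.coeff_single, Finsupp.single_apply]
  exact if_congr eq_comm rfl rfl

variable [Fintype W]

private theorem mul_co (x y : MonoidAlgebra ℤ W) (g : W) :
    (x * y).coeff g = ∑ h, x.coeff h * y.coeff (h⁻¹ * g) := by
  rw [MonoidAlgebra.coeff_mul_apply_left, Finsupp.sum_fintype]
  intro h
  rw [zero_mul]

/-- The element with given coefficients. -/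
private noncomputable def el (a : W → ℤ) : MonoidAlgebra ℤ W :=
  MonoidAlgebra.ofCoeff (Finsupp.equivFunOnFinite.symm a)

private theorem co_el (a : W → ℤ) (g : W) : (el a).coeff g = a g := rfl

private theorem mul_aug (x y : MonoidAlgebra ℤ W) :
    ∑ g, (x * y).coeff g = (∑ g, x.coeff g) * ∑ g, y.coeff g := by
  simp_rw [mul_co]
  rw [Finset.sum_comm, Finset.sum_mul]
  refine Finset.sum_congr rfl fun h _ => ?_
  rw [← Finset.mul_sum]
  congr 1
  exact Fintype.sum_equiv (Equiv.mulLeft h⁻¹) _ _ fun g => rfl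

/-- The sum of all elements. -/
private noncomputable def all (W : Type) [CommGroup W] [Fintype W] : MonoidAlgebra ℤ W :=
  el fun _ => 1

private theorem all_mul (x : MonoidAlgebra ℤ W) :
    all W * x = ((∑ g, x.coeff g : ℤ) : MonoidAlgebra ℤ W) * all W := by
  refine mul_ext fun g => ?_
  rw [mul_co, mul_int]
  have h1 : ∀ h, (all W).coeff h = 1 := fun h => rfl
  simp_rw [h1, one_mul]
  rw [mul_one]
  exact Fintype.sum_equiv ((Equiv.inv W).trans (Equiv.mulRight g)) _ _ fun h => rfl

end Coef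

section Hom

variable {W : Type} [CommGroup W] {p : ℕ}

private noncomputable def sg (p : ℕ) (W : Type) [CommGroup W] :
    MonoidAlgebra ℤ W →+* MonoidAlgebra ℤ W :=
  MonoidAlgebra.mapDomainRingHom ℤ (powMonoidHom p : W →* W)

private noncomputable def st (W : Type) [CommGroup W] :
    MonoidAlgebra ℤ W →+* MonoidAlgebra ℤ W :=
  MonoidAlgebra.mapDomainRingHom ℤ (invMonoidHom : W →* W)

private theorem co_sg (hp : Function.Injective fun w : W => w ^ p) (x : MonoidAlgebra ℤ W)
    (w : W) : (sg p W x).coeff (w ^ p) = x.coeff w :=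
  Finsupp.mapDomain_apply (f := fun w : W => w ^ p) hp x.coeff w

private theorem co_st (x : MonoidAlgebra ℤ W) (w : W) :
    (st W x).coeff w⁻¹ = x.coeff w :=
  Finsupp.mapDomain_apply (f := fun w : W => w⁻¹) inv_injective x.coeff w

private theorem co_st' (x : MonoidAlgebra ℤ W) (w : W) :
    (st W x).coeff w = x.coeff w⁻¹ := by
  conv_lhs => rw [← inv_inv w]
  exact co_st x w⁻¹

private theorem st_st (x : MonoidAlgebra ℤ W) : st W (st W x) = x := by
  refine mul_ext fun g => ?_
  rw [co_st', co_st', inv_inv]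

private theorem st_sg (hp : Function.Bijective fun w : W => w ^ p) (x : MonoidAlgebra ℤ W) :
    st W (sg p W x) = sg p W (st W x) := by
  refine mul_ext fun g => ?_
  obtain ⟨w, hw⟩ := hp.2 g
  have hw' : w ^ p = g := hw
  rw [← hw', co_sg hp.1, co_st', co_st', ← inv_pow, co_sg hp.1]

private theorem sg_pow (hpr : p.Prime) (x : MonoidAlgebra ℤ W) :
    (p : MonoidAlgebra ℤ W) ∣ sg p W x - x ^ p := by
  induction x using MonoidAlgebra.induction_linear with
  | zero =>
    rw [map_zero, zero_pow hpr.ne_zero, sub_zero]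
    exact dvd_zero _
  | add x y hx hy =>
    obtain ⟨r, hr⟩ := exists_add_pow_prime_eq hpr x y
    rw [map_add, hr]
    have h : sg p W x + sg p W y - (x ^ p + y ^ p + p * x * y * r) =
        (sg p W x - x ^ p) + (sg p W y - y ^ p) - p * (x * y * r) := by ring
    rw [h]
    exact dvd_sub (dvd_add hx hy) (Dvd.intro _ rfl)
  | single w a =>
    have h1 : sg p W (MonoidAlgebra.single w a) = MonoidAlgebra.single (w ^ p) a :=
      MonoidAlgebra.mapDomain_single
    have h2 : (p : ℤ) ∣ a - a ^ p := by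
      haveI := Fact.mk hpr
      rw [← ZMod.intCast_zmod_eq_zero_iff_dvd]
      push_cast
      rw [ZMod.pow_card, sub_self]
    obtain ⟨c, hc⟩ := h2
    refine ⟨MonoidAlgebra.single (w ^ p) c, ?_⟩
    rw [h1, MonoidAlgebra.single_pow, ← MonoidAlgebra.single_sub, hc, MonoidAlgebra.natCast_def,
      MonoidAlgebra.single_mul_single, one_mul]

variable [Fintype W]

private theorem sg_iter (hp : Function.Injective fun w : W => w ^ p) (i : ℕ)
    (x : MonoidAlgebra ℤ W) (w : W) : ((sg p W)^[i] x).coeff (w ^ p ^ i) = x.coeff w := by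
  induction i generalizing w with
  | zero => rw [pow_zero, pow_one]; rfl
  | succ i ih =>
    rw [Function.iterate_succ_apply', pow_succ, pow_mul, co_sg hp, ih]

private theorem sg_all (hp : Function.Bijective fun w : W => w ^ p) :
    sg p W (all W) = all W := by
  refine mul_ext fun g => ?_
  obtain ⟨w, hw⟩ := hp.2 g
  have hw' : w ^ p = g := hw
  rw [← hw', co_sg hp.1]
  rfl

private theorem st_all : st W (all W) = all W := by
  refine mul_ext fun g => ?_
  rw [co_st']
  rfl

private theorem sum_sg (hp : Function.Bijective fun w : W => w ^ p) (x : MonoidAlgebra ℤ W) :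
    ∑ g, (sg p W x).coeff g = ∑ g, x.coeff g :=
  (Fintype.sum_equiv (Equiv.ofBijective _ hp) _ _ fun w => (co_sg hp.1 x w).symm).symm

private theorem sum_st (x : MonoidAlgebra ℤ W) : ∑ g, (st W x).coeff g = ∑ g, x.coeff g :=
  (Fintype.sum_equiv (Equiv.inv W) _ _ fun w => (co_st x w).symm).symm

end Hom

theorem tMul (hF : S_Frob) : S_Mul := by
  classical
  intro W _ _ E n μ p hC hn hp
  obtain ⟨b, hb, hμ⟩ := hp.big
  have hpr := hp.pr
  have hcop : (Nat.card W).Coprime p := by
    rw [Nat.card_eq_fintype_card]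
    exact ((Nat.Prime.coprime_iff_not_dvd hpr).2 hp.nd).symm
  have hbij : Function.Bijective fun w : W => w ^ p := (powCoprime hcop).bijective
  obtain ⟨n', hn'⟩ := hb
  have hP0 : (0 : ℤ) < (p : ℤ) ^ b := pow_pos (by exact_mod_cast hpr.pos) b
  set P : ℤ := (p : ℤ) ^ b with hP
  have hnP : (n : ℤ) = P * n' := by
    rw [hn', hP]
    push_cast
    rfl
  have hμP : (μ : ℤ) < P := by
    rw [hP]
    exact_mod_cast hμ
  set e : MonoidAlgebra ℤ W := el fun w => (E w : ℤ) with he
  set k : ℤ := ∑ w, (E w : ℤ) with hk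
  have hek : ∑ g, e.coeff g = k := rfl
  have hint : ∀ (z : ℤ) (g : W), ((z : MonoidAlgebra ℤ W)).coeff g = if g = 1 then z else 0 := by
    intro z g
    have h := mul_int z (1 : MonoidAlgebra ℤ W) g
    rw [mul_one, mul_one'] at h
    rw [h]
    split_ifs <;> simp
  have hall : ∀ g : W, (all W).coeff g = 1 := fun g => rfl
  have hee : e * st W e = ((n : ℤ) : MonoidAlgebra ℤ W) + ((μ : ℤ) : MonoidAlgebra ℤ W) * all W := by
    refine mul_ext fun g => ?_
    rw [mul_co, MonoidAlgebra.coeff_add, Finsupp.add_apply, mul_int, hint, hall, mul_one]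
    have h1 : ∑ h, e.coeff h * (st W e).coeff (h⁻¹ * g) = ((∑ w, E (w * g) * E w : ℕ) : ℤ) := by
      push_cast
      refine Fintype.sum_equiv (Equiv.mulLeft g⁻¹) _ _ fun h => ?_
      rw [co_st', mul_inv, inv_inv, Equiv.coe_mulLeft, he, co_el, co_el]
      congr 2
      · congr 1
        change h = g⁻¹ * h * g
        rw [mul_comm g⁻¹ h, inv_mul_cancel_right]
      · congr 1
        rw [mul_comm]
    rw [h1]
    by_cases hg : g = 1
    · rw [if_pos hg]
      subst hg
      have h2 := hC.one
      simp only [mul_one]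
      rw [h2]
      push_cast
      rfl
    · rw [if_neg hg, hC.ne g hg, zero_add]
  have hsum : k * k = n + μ * Fintype.card W := by
    have h1 := mul_aug e (st W e)
    rw [hee, sum_st, hek] at h1
    rw [← h1]
    simp_rw [MonoidAlgebra.coeff_add, Finsupp.add_apply, mul_int, hint, hall, mul_one]
    rw [Finset.sum_add_distrib, Finset.sum_ite_eq', if_pos (Finset.mem_univ _), Finset.sum_const,
      Finset.card_univ, nsmul_eq_mul, mul_comm (Fintype.card W : ℤ)]
  set Y : MonoidAlgebra ℤ W := sg p W e * st W e with hY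
  have hYsum : ∑ g, Y.coeff g = n + μ * Fintype.card W := by
    rw [hY, mul_aug, sum_sg hbij, sum_st, hek, hsum]
  -- all coefficients are congruent
  have hdvd : ∀ g h : W, P ∣ Y.coeff (g * h⁻¹) - Y.coeff g := by
    intro g h
    have hSt : all W * MonoidAlgebra.single h (1 : ℤ) = all W := by
      rw [all_mul]
      have : ∑ g, (MonoidAlgebra.single h (1 : ℤ)).coeff g = 1 := by
        simp_rw [MonoidAlgebra.coeff_single, Finsupp.single_apply]
        rw [Finset.sum_ite_eq, if_pos (Finset.mem_univ _)]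
      rw [this, Int.cast_one, one_mul]
    have h1 : e * (st W e * (MonoidAlgebra.single h (1 : ℤ) - 1)) =
        (p : MonoidAlgebra ℤ W) ^ b *
          ((n' : MonoidAlgebra ℤ W) * (MonoidAlgebra.single h (1 : ℤ) - 1)) := by
      have h2 : ((n : ℤ) : MonoidAlgebra ℤ W) =
          (p : MonoidAlgebra ℤ W) ^ b * (n' : MonoidAlgebra ℤ W) := by
        rw [hnP, hP]
        push_cast
        rfl
      rw [← mul_assoc, hee, h2]
      linear_combination ((μ : ℤ) : MonoidAlgebra ℤ W) * hSt
    have hφ : 0 < Nat.totient (Fintype.card W) := Nat.totient_pos.2 Fintype.card_pos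
    have h3 := hF (MonoidAlgebra ℤ W) p hpr (fun x hx => by
        refine mul_ext fun g => ?_
        have h4 := congrArg (fun y : MonoidAlgebra ℤ W => y.coeff g) hx
        have h5 : ((p : ℤ) : MonoidAlgebra ℤ W) = (p : MonoidAlgebra ℤ W) := by push_cast; rfl
        rw [← h5] at h4
        simp only [mul_int] at h4
        rcases mul_eq_zero.1 h4 with h6 | h6
        · exact absurd (by exact_mod_cast h6) hpr.ne_zero
        · exact h6) (sg p W) (sg_pow hpr) (Nat.totient (Fintype.card W)) hφ (fun x => by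
        refine mul_ext fun w => ?_
        have h4 := sg_iter hbij.1 (Nat.totient (Fintype.card W)) x w
        have h5 : w ^ p ^ Nat.totient (Fintype.card W) = w := by
          have h6 : p ^ Nat.totient (Fintype.card W) ≡ 1 [MOD Fintype.card W] :=
            Nat.ModEq.pow_totient (by rw [← Nat.card_eq_fintype_card]; exact hcop.symm)
          have h7 : w ^ p ^ Nat.totient (Fintype.card W) = w ^ 1 :=
            pow_eq_pow_iff_modEq.2 (h6.of_dvd (orderOf_dvd_card))
          rw [h7, pow_one]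
        rw [h5] at h4
        exact h4) b e (st W e * (MonoidAlgebra.single h (1 : ℤ) - 1)) ⟨_, h1⟩
    obtain ⟨y, hy⟩ := h3
    have h4 := congrArg (fun y : MonoidAlgebra ℤ W => y.coeff g) hy
    have h5 : (p : MonoidAlgebra ℤ W) ^ b = ((P : ℤ) : MonoidAlgebra ℤ W) := by
      rw [hP]
      push_cast
      rfl
    rw [← mul_assoc, ← hY, h5, mul_sub, mul_one] at h4
    simp only [mul_int] at h4
    rw [MonoidAlgebra.coeff_sub, Finsupp.sub_apply, MonoidAlgebra.coeff_mul_single_apply,
      mul_one] at h4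
    exact ⟨_, h4⟩
  have hdvd' : ∀ g g' : W, P ∣ Y.coeff g' - Y.coeff g := by
    intro g g'
    have := hdvd g (g'⁻¹ * g)
    rw [mul_inv_rev, inv_inv, mul_inv_cancel_left] at this
    exact this
  have hμY : ∀ g : W, P ∣ Y.coeff g - μ := by
    intro g
    have h1 : P ∣ ∑ g' : W, (Y.coeff g' - Y.coeff g) := Finset.dvd_sum fun g' _ => hdvd' g g'
    rw [Finset.sum_sub_distrib, hYsum, Finset.sum_const, Finset.card_univ, nsmul_eq_mul] at h1
    have h2 : P ∣ (Fintype.card W : ℤ) * (Y.coeff g - μ) := by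
      have h3 : (Fintype.card W : ℤ) * (Y.coeff g - μ) =
          P * n' - ((n : ℤ) + μ * Fintype.card W - Fintype.card W * Y.coeff g) := by
        rw [← hnP]
        ring
      rw [h3]
      exact dvd_sub (Dvd.intro _ rfl) h1
    refine IsCoprime.dvd_of_dvd_mul_left ?_ h2
    rw [hP]
    refine IsCoprime.pow_left (Nat.Coprime.isCoprime ?_)
    rw [← Nat.card_eq_fintype_card]
    exact hcop.symm
  have hpos : ∀ g : W, 0 ≤ Y.coeff g := by
    intro g
    rw [hY, mul_co]
    refine Finset.sum_nonneg fun h _ => mul_nonneg ?_ ?_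
    · obtain ⟨w, hw⟩ := hbij.2 h
      have hw' : w ^ p = h := hw
      rw [← hw', co_sg hbij.1]
      exact Int.natCast_nonneg _
    · rw [co_st']
      exact Int.natCast_nonneg _
  choose H hH using hμY
  have hH0 : ∀ g, 0 ≤ H g := by
    intro g
    by_contra hneg
    have h1 : H g ≤ -1 := by omega
    have h2 : P * H g ≤ P * (-1) := mul_le_mul_of_nonneg_left h1 hP0.le
    have h3 := hpos g
    have h4 := hH g
    linarith
  set h : MonoidAlgebra ℤ W := el H with hh
  have hYH : Y = ((μ : ℤ) : MonoidAlgebra ℤ W) * all W + ((P : ℤ) : MonoidAlgebra ℤ W) * h := by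
    refine mul_ext fun g => ?_
    rw [MonoidAlgebra.coeff_add, Finsupp.add_apply, mul_int, mul_int, hall, hh, co_el, ← hH g]
    ring
  have hHsum : ∑ g, H g = n' := by
    have h1 : P * ∑ g, H g = P * n' := by
      rw [Finset.mul_sum, ← hnP]
      have h2 : ∑ g : W, (Y.coeff g - (μ : ℤ)) = n := by
        rw [Finset.sum_sub_distrib, hYsum, Finset.sum_const, Finset.card_univ, nsmul_eq_mul]
        ring
      rw [← h2]
      exact Finset.sum_congr rfl fun g _ => (hH g).symm
    exact mul_left_cancel₀ hP0.ne' h1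
  -- the main identity
  have hSH : all W * h = ((n' : ℤ) : MonoidAlgebra ℤ W) * all W := by
    rw [all_mul]
    have : ∑ g, h.coeff g = n' := hHsum
    rw [this]
  have hSH' : all W * st W h = ((n' : ℤ) : MonoidAlgebra ℤ W) * all W := by
    rw [all_mul, sum_st]
    have : ∑ g, h.coeff g = n' := hHsum
    rw [this]
  have hYst : st W Y = ((μ : ℤ) : MonoidAlgebra ℤ W) * all W +
      ((P : ℤ) : MonoidAlgebra ℤ W) * st W h := by
    rw [hYH, map_add, map_mul, map_mul, map_intCast, map_intCast, st_all]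
  have hYY : Y * st W Y = (((n : ℤ) : MonoidAlgebra ℤ W) + ((μ : ℤ) : MonoidAlgebra ℤ W) * all W) *
      (((n : ℤ) : MonoidAlgebra ℤ W) + ((μ : ℤ) : MonoidAlgebra ℤ W) * all W) := by
    have h1 : st W Y = sg p W (st W e) * e := by
      rw [hY, map_mul, st_st, st_sg hbij]
    have h2 : sg p W (e * st W e) =
        ((n : ℤ) : MonoidAlgebra ℤ W) + ((μ : ℤ) : MonoidAlgebra ℤ W) * all W := by
      rw [hee, map_add, map_mul, map_intCast, map_intCast, sg_all hbij]
    rw [h1, hY]
    nth_rewrite 1 [← h2]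
    rw [← hee, map_mul]
    ring
  have hnR : ((n : ℤ) : MonoidAlgebra ℤ W) =
      ((P : ℤ) : MonoidAlgebra ℤ W) * ((n' : ℤ) : MonoidAlgebra ℤ W) := by
    rw [hnP, Int.cast_mul]
  have hkey : ((P : ℤ) : MonoidAlgebra ℤ W) * (((P : ℤ) : MonoidAlgebra ℤ W) * (h * st W h)) =
      ((n : ℤ) : MonoidAlgebra ℤ W) * ((n : ℤ) : MonoidAlgebra ℤ W) := by
    rw [hYst, hYH] at hYY
    linear_combination hYY - ((μ : ℤ) : MonoidAlgebra ℤ W) * ((P : ℤ) : MonoidAlgebra ℤ W) * hSH -
      ((μ : ℤ) : MonoidAlgebra ℤ W) * ((P : ℤ) : MonoidAlgebra ℤ W) * hSH' +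
      2 * ((μ : ℤ) : MonoidAlgebra ℤ W) * all W * hnR
  have hzero : ∀ g : W, g ≠ 1 → ∀ w : W, H w * H (g⁻¹ * w) = 0 := by
    intro g hg
    have h1 := congrArg (fun y : MonoidAlgebra ℤ W => y.coeff g) hkey
    simp only [mul_int, hint, if_neg hg, mul_zero] at h1
    have h2 : (h * st W h).coeff g = 0 := by
      rcases mul_eq_zero.1 h1 with h3 | h3
      · exact absurd h3 hP0.ne'
      · rcases mul_eq_zero.1 h3 with h4 | h4
        · exact absurd h4 hP0.ne'
        · exact h4
    rw [mul_co] at h2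
    have h3 : ∑ w, H w * H (g⁻¹ * w) = 0 := by
      rw [← h2]
      refine Finset.sum_congr rfl fun w _ => ?_
      rw [co_st', mul_inv, inv_inv, mul_comm w g⁻¹]
      rfl
    intro w
    exact (Finset.sum_eq_zero_iff_of_nonneg fun w _ => mul_nonneg (hH0 _) (hH0 _)).1 h3 w
      (Finset.mem_univ w)
  have hn'0 : (n' : ℤ) ≠ 0 := by
    intro h0
    rw [h0, mul_zero] at hnP
    exact hn.ne' (by exact_mod_cast hnP)
  obtain ⟨h₀, hh₀⟩ : ∃ h₀, H h₀ ≠ 0 := by
    by_contra hcon
    push Not at hcon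
    refine hn'0 ?_
    rw [← hHsum]
    exact Finset.sum_eq_zero fun g _ => hcon g
  have hH1 : ∀ w, w ≠ h₀ → H w = 0 := by
    intro w hw
    have h1 := hzero (w * h₀⁻¹) (fun h => hw (mul_inv_eq_one.1 h)) w
    rw [mul_inv_rev, inv_inv, inv_mul_cancel_right] at h1
    exact (mul_eq_zero.1 h1).resolve_right hh₀
  have hH2 : H h₀ = n' := by
    rw [← hHsum]
    exact (Finset.sum_eq_single h₀ (fun w _ hw => hH1 w hw)
      fun h => absurd (Finset.mem_univ _) h).symm
  have hY2 : Y = ((μ : ℤ) : MonoidAlgebra ℤ W) * all W +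
      ((n : ℤ) : MonoidAlgebra ℤ W) * MonoidAlgebra.single h₀ 1 := by
    rw [hYH, hnR, mul_assoc]
    congr 2
    refine mul_ext fun g => ?_
    rw [mul_int, hh, co_el, MonoidAlgebra.coeff_single, Finsupp.single_apply]
    by_cases hg : h₀ = g
    · rw [if_pos hg, ← hg, hH2, mul_one]
    · rw [if_neg hg, hH1 g fun h => hg h.symm, mul_zero]
  have hSe : all W * e = (k : MonoidAlgebra ℤ W) * all W := by rw [all_mul, hek]
  have hSse : all W * sg p W e = (k : MonoidAlgebra ℤ W) * all W := by
    rw [all_mul, sum_sg hbij, hek]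
  have hfin : ((n : ℤ) : MonoidAlgebra ℤ W) * sg p W e =
      ((n : ℤ) : MonoidAlgebra ℤ W) * (MonoidAlgebra.single h₀ 1 * e) := by
    have h1 : Y * e = sg p W e * (e * st W e) := by
      rw [hY]
      ring
    rw [hee, hY2] at h1
    linear_combination -h1 + ((μ : ℤ) : MonoidAlgebra ℤ W) * hSe -
      ((μ : ℤ) : MonoidAlgebra ℤ W) * hSse
  refine ⟨h₀⁻¹, fun w => ?_⟩
  have h1 := congrArg (fun y : MonoidAlgebra ℤ W => y.coeff (w ^ p)) hfin
  simp only [mul_int] at h1
  rw [co_sg hbij.1, MonoidAlgebra.coeff_single_mul_apply, one_mul] at h1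
  have hn0 : (n : ℤ) ≠ 0 := by exact_mod_cast hn.ne'
  have h2 : (E w : ℤ) = E (h₀⁻¹ * w ^ p) := mul_left_cancel₀ hn0 h1
  exact_mod_cast h2.symm

end Pool.Agent.DSub
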