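import Pool.Agent.Lib.MP_706923_coS.Spec

/-!
# Module Orb: a finite set which is closed under `w ↦ w ^ m`
-/

set_option autoImplicit false

namespace Pool.Agent.DSub

private theorem Orb_cancel {W : Type} [CommGroup W] (m : ℕ)
    (hinj : Function.Injective (fun y : W => y ^ m)) (w : W) (a : ℕ) :
    ∀ i : ℕ, w ^ (m ^ (i + a)) = w ^ (m ^ i) → w ^ (m ^ a) = w := by
  intro i
  induction i with
  | zero =>
    intro h
    rw [Nat.zero_add, pow_zero, pow_one] at h
    exact h
  | succ i ih =>
    intro h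
    apply ih
    apply hinj
    change (w ^ (m ^ (i + a))) ^ m = (w ^ (m ^ i)) ^ m
    rw [← pow_mul, ← pow_mul, ← pow_succ, ← pow_succ]
    rw [show i + a + 1 = i + 1 + a by omega]
    exact h

theorem tOrb : S_Orb := by
  intro W _ _ T m hm hT w hw
  have h1 : Nat.Coprime (Nat.card W) m := by
    rw [Nat.card_eq_fintype_card]
    exact hm.symm
  have hinj : Function.Injective (fun y : W => y ^ m) := by
    intro a b hab
    apply (powCoprime h1).injective
    rw [powCoprime_apply, powCoprime_apply]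
    exact hab
  have hpow : ∀ i : ℕ, w ^ (m ^ i) ∈ T := by
    intro i
    induction i with
    | zero =>
      rw [pow_zero, pow_one]
      exact hw
    | succ i ih =>
      rw [pow_succ, pow_mul]
      exact hT _ ih
  obtain ⟨i, hi, j, hj, hij, he⟩ := Finset.exists_ne_map_eq_of_card_lt_of_maps_to
    (s := Finset.range (T.card + 1)) (t := T) (by rw [Finset.card_range]; omega)
    (f := fun i => w ^ (m ^ i)) (fun i _ => hpow i)
  rw [Finset.mem_range] at hi hj
  have key : ∀ a b : ℕ, a < b → b < T.card + 1 → w ^ (m ^ a) = w ^ (m ^ b) →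
      ∃ φ : ℕ, 1 ≤ φ ∧ φ ≤ T.card ∧ ((orderOf w : ℕ) : ℤ) ∣ (m : ℤ) ^ φ - 1 := by
    intro a b hab hb h
    refine ⟨b - a, by omega, by omega, ?_⟩
    have h2 : w ^ (m ^ (b - a)) = w := by
      apply Orb_cancel m hinj w (b - a) a
      rw [show a + (b - a) = b by omega]
      exact h.symm
    rw [orderOf_dvd_iff_zpow_eq_one, zpow_sub, zpow_one]
    have h3 : w ^ ((m : ℤ) ^ (b - a)) = w := by
      have h4 : ((m : ℤ) ^ (b - a)) = ((m ^ (b - a) : ℕ) : ℤ) := by push_cast; rfl
      rw [h4, zpow_natCast, h2]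
    rw [h3, mul_inv_cancel]
  rcases lt_or_gt_of_ne hij with h | h
  · exact key i j h hj he
  · exact key j i h hi he.symm

end Pool.Agent.DSub
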