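import Pool.Agent.Lib.MP_706923_coS.Spec

/-!
# MP_706923_co, package S: the image of a difference set
-/

set_option autoImplicit false

namespace Pool.Agent.DSub

open Finset

section

variable {G : Type} [Group G] [DecidableEq G]

/-- The number of pairs with a given quotient. -/
private def psN (D : Finset G) (x : G) : ℕ := ((D ×ˢ D).filter fun p => p.1 * p.2⁻¹ = x).card

private theorem psN_one (D : Finset G) : psN D 1 = D.card := by
  have h : ((D ×ˢ D).filter fun p : G × G => p.1 * p.2⁻¹ = 1) = D.image fun d => (d, d) := by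
    ext ⟨a, b⟩
    rw [mem_filter, mem_product, mem_image, mul_inv_eq_one]
    constructor
    · rintro ⟨⟨ha, _⟩, hab⟩
      exact ⟨a, ha, by rw [show b = a from hab.symm]⟩
    · rintro ⟨d, hd, hab⟩
      rw [Prod.mk.injEq] at hab
      exact ⟨⟨hab.1 ▸ hd, hab.2 ▸ hd⟩, hab.1.symm.trans hab.2⟩
  rw [psN, h, card_image_of_injective]
  intro a b hab
  exact congrArg Prod.fst hab

private theorem psN_le (D : Finset G) (x : G) : psN D x ≤ D.card := by
  refine card_le_card_of_injOn Prod.snd (fun p hp => ?_) fun p hp q hq hpq => ?_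
  · rw [coe_filter, Set.mem_ofPred_eq, mem_product] at hp
    exact hp.1.2
  · rw [coe_filter, Set.mem_ofPred_eq] at hp hq
    refine Prod.ext ?_ hpq
    rw [← inv_mul_cancel_right p.1 p.2, ← inv_mul_cancel_right q.1 q.2, hp.2, hq.2, hpq]

private theorem psN_val {D : Finset G} {l : ℕ} (hD : IsDS D l) (x : G) :
    psN D x = if x = 1 then D.card else l := by
  by_cases hx : x = 1
  · rw [if_pos hx, hx, psN_one]
  · rw [if_neg hx]
    exact hD x hx

variable [Fintype G]

private theorem psN_sum (D : Finset G) : ∑ x, psN D x = D.card ^ 2 := by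
  rw [sq, ← card_product, card_eq_sum_card_fiberwise (f := fun p : G × G => p.1 * p.2⁻¹)
    (s := D ×ˢ D) (t := univ) fun p _ => mem_coe.2 (mem_univ _)]
  rfl

private theorem psh_cor {W : Type} [CommGroup W] [Fintype W] [DecidableEq W] (f : G →* W)
    (D : Finset G) (g : W) :
    ∑ w, (D.filter fun d => f d = w * g).card * (D.filter fun d => f d = w).card =
      ∑ x ∈ univ.filter (fun x => f x = g), psN D x := by
  have h1 : ((D ×ˢ D).filter fun p : G × G => f (p.1 * p.2⁻¹) = g).card =
      ∑ w, (D.filter fun d => f d = w * g).card * (D.filter fun d => f d = w).card := by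
    rw [card_eq_sum_card_fiberwise (f := fun p : G × G => f p.2) (t := univ)
      fun p _ => mem_coe.2 (mem_univ _)]
    refine sum_congr rfl fun w _ => ?_
    rw [← card_product]
    congr 1
    ext ⟨a, b⟩
    simp only [mem_filter, mem_product, map_mul, map_inv]
    constructor
    · rintro ⟨⟨⟨ha, hb⟩, h2⟩, h3⟩
      refine ⟨⟨ha, ?_⟩, hb, h3⟩
      rw [← h2, h3, mul_comm, mul_assoc, inv_mul_cancel, mul_one]
    · rintro ⟨⟨ha, h2⟩, hb, h3⟩
      refine ⟨⟨⟨ha, hb⟩, ?_⟩, h3⟩
      rw [h2, h3, mul_comm w g, mul_assoc, mul_inv_cancel, mul_one]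
  rw [← h1, card_eq_sum_card_fiberwise (f := fun p : G × G => p.1 * p.2⁻¹)
    (t := univ.filter fun x => f x = g) fun p hp => ?_]
  · refine sum_congr rfl fun x hx => ?_
    rw [psN]
    congr 1
    ext p
    simp only [mem_filter]
    constructor
    · rintro ⟨⟨h2, _⟩, h3⟩
      exact ⟨h2, h3⟩
    · rintro ⟨h2, h3⟩
      exact ⟨⟨h2, by rw [h3]; exact (mem_filter.1 hx).2⟩, h3⟩
  · rw [coe_filter, Set.mem_ofPred_eq] at hp
    rw [mem_coe, mem_filter]
    exact ⟨mem_univ _, hp.2⟩

omit [DecidableEq G] in
private theorem psh_fib {W : Type} [CommGroup W] [DecidableEq W] (f : G →* W)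
    (hf : Function.Surjective f) (g : W) :
    (univ.filter fun x => f x = g).card = Nat.card f.ker := by
  rw [MonoidHom.card_fiber_eq_of_mem_range f (hf g) (hf 1), Nat.card_eq_fintype_card,
    Fintype.card_subtype]
  congr 1
  ext x
  rw [mem_filter, mem_filter, MonoidHom.mem_ker]

end

/-- The image of a difference set. -/
theorem tPsh : S_Psh := by
  intro G _ _ _ D l hD hG
  have hne : Nontrivial G := Fintype.one_lt_card_iff_nontrivial.1 hG
  obtain ⟨x, hx⟩ := exists_ne (1 : G)
  have hl : l ≤ D.card := by
    have h1 := psN_le D x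
    rwa [psN_val hD, if_neg hx] at h1
  refine ⟨hl, ?_, ?_⟩
  · have h1 := psN_sum D
    simp only [psN_val hD] at h1
    rw [← Finset.add_sum_erase _ _ (mem_univ (1 : G)), if_pos rfl,
      sum_congr rfl fun y hy => if_neg (ne_of_mem_erase hy), sum_const, card_erase_of_mem
      (mem_univ _), smul_eq_mul, card_univ] at h1
    rw [← h1]
    obtain ⟨v, hv⟩ : ∃ v, Fintype.card G = v + 1 := ⟨Fintype.card G - 1, by omega⟩
    rw [hv, Nat.add_sub_cancel, mul_add, mul_one, mul_comm v l]
    omega
  · intro W _ _ _ f hf
    have hcor : ∀ g : W, ∑ w, (D.filter fun d => f d = w * g).card *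
        (D.filter fun d => f d = w).card = if g = 1 then (D.card - l) + l * Nat.card f.ker else
        l * Nat.card f.ker := by
      intro g
      rw [psh_cor f D g]
      simp only [psN_val hD]
      by_cases hg : g = 1
      · subst hg
        have h1 : (1 : G) ∈ univ.filter fun x => f x = 1 := by
          rw [mem_filter]
          exact ⟨mem_univ _, map_one f⟩
        rw [if_pos rfl, ← Finset.add_sum_erase _ _ h1, if_pos rfl,
          sum_congr rfl fun y hy => if_neg (ne_of_mem_erase hy), sum_const, card_erase_of_mem h1,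
          smul_eq_mul, psh_fib f hf]
        obtain ⟨v, hv⟩ : ∃ v, Nat.card f.ker = v + 1 := ⟨Nat.card f.ker - 1, by
          have : 0 < Nat.card f.ker := Nat.card_pos
          omega⟩
        rw [hv, Nat.add_sub_cancel, mul_add, mul_one, mul_comm v l]
        omega
      · rw [if_neg hg, sum_congr rfl fun y hy => if_neg ?_, sum_const, smul_eq_mul, psh_fib f hf,
          mul_comm]
        rintro rfl
        rw [mem_filter, map_one] at hy
        exact hg hy.2.symm
    refine ⟨?_, ?_, ?_, ?_⟩
    · rw [← Nat.card_eq_fintype_card, ← Subgroup.card_mul_index f.ker, Subgroup.index_ker,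
        MonoidHom.range_eq_top.2 hf, Subgroup.card_top, Nat.card_eq_fintype_card (α := W)]
    · exact (card_eq_sum_card_fiberwise (f := f) (t := univ) fun p _ => mem_coe.2 (mem_univ _)).symm
    · have := hcor 1
      rw [if_pos rfl] at this
      simpa only [mul_one] using this
    · intro g hg
      have := hcor g
      rw [if_neg hg] at this
      exact this

end Pool.Agent.DSub
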