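import Pool.Agent.Lib.MP_706923_coS.Defs

/-!
# MP_706923_co, package S: statements

THEOREM. Fix `l ≥ 2`.
(A) For every `r` there is `B`: if a difference set `D` with parameter `l` in a finite group `G` and a
surjective homomorphism `f` from `G` onto an abelian group `W` with kernel of order `r` are given, and
all prime factors of `|W|` are `> B`, then a translate of `D` meets the kernel in a difference set with
the same `l`, and all the other cosets in at most one element. (False for `l = 1`: Singer.)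
(B) For every `e` there is `B`: if `G` is abelian of order prime to `l` and `G / N` has exponent dividing
`e`, `4 l |N| ≤ |D|`, then the exponent of `G` is at most `B`.
(C) (also `l = 1`) There is `B`: if `G` is abelian of order prime to `l`, then not all the primes
`p` with `l < p ≤ B` divide `n = |D| - l > 0`.

IDEA. All prime powers `p^b > μ` which divide `n` give multipliers `p`, so `n / n0` is a
multiplier with `n0` bounded; modulo a divisor `q` of the order, `n = k^2` and `k` is a root of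
`x^2 - x + l`, which is not a root of unity for `l ≥ 2`; so the order of `n / n0` modulo `q` tends to
infinity with `q`.

Every module is independent (the statements used are hypotheses).
-/

set_option autoImplicit false

namespace Pool.Agent.DSub

/-- **Frob** (120 lines). Frobenius lifts.

Proof. Let `Q = p ^ f`. (1) From `σ x ≡ x ^ p` mod `p`: `σ^[i] x ≡ x ^ (p ^ i)` mod `p` (induction, `σ` maps `p R` into
`p R`), so `x ≡ x ^ Q` mod `p` for all `x`. (2) If `y ≡ z` mod `p` then `y ^ (p ^ s) ≡ z ^ (p ^ s)` mod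
`p ^ (s + 1)` (Mathlib: `dvd_sub_pow_of_dvd_sub`). (3) Let `y = a ^ (p ^ s)`, `ε = y ^ (Q - 1)`. By (1), (2)
`y ^ Q ≡ y` mod `p ^ (s + 1)`, so `ε ^ 2 = y ^ Q * y ^ (Q - 2) ≡ ε` mod `p ^ (s + 1)` (`Q ≥ 2`), and all powers
`ε ^ i`, `i ≥ 1`, are `≡ ε`. (4) `a * ε ≡ a` mod `p` (`a * a ^ (Q - 1) ≡ a`, repeatedly), so
`a * (1 - ε) = p * a₁`. (5) `σ ε = (σ a ^ (p ^ s)) ^ (Q - 1) ≡ ((a ^ p) ^ (p ^ s)) ^ (Q - 1) = ε ^ p ≡ ε` mod
`p ^ (s + 1)`. (6) Induction on `b` (for all `a`, `c`); `b = 0` is trivial. `b + 1`: take `s = b`.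
`σ a * c = σ a * ε * c + σ a * (1 - ε) * c`. `ε` is a positive power of `a`, so the first term is
divisible by `p ^ (b + 1)`. The second one is modulo `p ^ (b + 1)` equal to
`σ a * (1 - σ ε) * c = σ (p * a₁) * c = p * (σ a₁ * c)`. And `p * (a₁ * c) = a * c * (1 - ε)` is divisible by
`p ^ (b + 1)`, so `p ^ b ∣ a₁ * c` (no `p`-torsion); by induction `p ^ b ∣ σ a₁ * c`. -/
def S_Frob : Prop :=
  ∀ (R : Type) [CommRing R] (p : ℕ), p.Prime → (∀ x : R, (p : R) * x = 0 → x = 0) →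
    ∀ σ : R →+* R, (∀ x : R, (p : R) ∣ σ x - x ^ p) → ∀ f : ℕ, 0 < f →
    (∀ x : R, σ^[f] x = x) → ∀ (b : ℕ) (a c : R), (p : R) ^ b ∣ a * c → (p : R) ^ b ∣ σ a * c

/-- **Mul** (250 lines, uses `S_Frob`). The second multiplier theorem for a power of one prime.

Proof. In the ring `R = MonoidAlgebra ℤ W` (commutative, no `p`-torsion). Let `e = ∑ E(w) w`, `e* = ∑ E(w) w⁻¹`,
`S = ∑ w`. `Cor` says `e e* = n + μ S`. `σ = MonoidAlgebra.mapDomainRingHom` of `w ↦ w ^ p`: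
`σ x ≡ x ^ p` mod `p` (induction on `x`: `(x + y) ^ p ≡ x ^ p + y ^ p` mod `p`,
`exists_add_pow_prime_eq` or the Frobenius of the quotient by `p`; `a ^ p ≡ a` mod `p` for integers), and
`σ^[f] = id` for `f = φ(|W|)` (`p` is prime to `|W|`). (1) For `h : W`: `e * (e* (h - 1)) = n (h - 1)` (`S h = S`) is divisible
by `P = p ^ b`, so by `S_Frob` `P ∣ σ e * e* * (h - 1)`. So all the coefficients of `Y = σ e * e*` are congruent
modulo `P`. Their sum is `k ^ 2`, `k = ∑ E(w)`, and `k ^ 2 = n + μ |W|` (sum all the equations `Cor`). As `|W|` is prime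
to `p` and `P ∣ n`, all of them are `≡ μ` mod `P`. They are `≥ 0` and `μ < P`, so they are
`μ + P * h_w` with `h_w ≥ 0`: `Y = μ S + P H`. (2) `Y Y* = (e e*) (σ e (σ e)*) = (n + μ S) (n + μ S)` (`σ S = S` since `w ↦ w ^ p` is
bijective). With `P ∑ h_w = k ^ 2 - μ |W| = n` the expansion gives `P ^ 2 H H* = n ^ 2`. So `H H*` is a multiple of `1`;
as the `h_w` are `≥ 0` and not all `0`, exactly one of them is not `0`: `Y = μ S + n g`. (3) Multiply by `e`:
`σ e * (n + μ S) = μ k S + n g e`, and `σ e * S = k S`, so `n σ e = n g e`, `σ e = g e`. The coefficient at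
`w ^ p` is `E(w) = E(g⁻¹ w ^ p)`. (One can also work with functions and convolutions; only `S_Frob` needs
the ring.) -/
def S_Mul : Prop :=
  ∀ (W : Type) [CommGroup W] [Fintype W] (E : W → ℕ) (n μ p : ℕ), Cor E n μ → 0 < n →
    Gd W n μ p → ∃ g : W, ∀ w : W, E (g * w ^ p) = E w

/-- **Tra** (100 lines, uses `S_Mul`). A common fixed translate.

Proof. `k = ∑ E(w)`. As `k` is prime to `|W|` there is `x` with `x ^ k = ∏ w ^ E(w)` (`powCoprime`). Let `E'(w) = E(x w)`;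
`π(F) = ∏ w ^ F(w)`. `π(E') = ∏ (x⁻¹ w) ^ E(w) = x⁻ᵏ π(E) = 1`. Let `p` be as in `Gd`, `g` as in `S_Mul`:
`E(g w ^ p) = E(w)`. So `E'(w) = E(x w) = E(g x ^ p w ^ p) = E'(g' w ^ p)`, `g' = x⁻¹ g x ^ p`. Then
`1 = π(E') ^ p = ∏ (w ^ p) ^ E'(g' w ^ p) = ∏ (g'⁻¹ y) ^ E'(y) = g'⁻ᵏ π(E')` (`y = g' w ^ p`, a bijection), so
`g' ^ k = 1` and `g' = 1`. -/
def S_Tra : Prop :=
  ∀ (W : Type) [CommGroup W] [Fintype W] (E : W → ℕ) (n μ : ℕ), Cor E n μ → 0 < n →
    Nat.Coprime (∑ w, E w) (Fintype.card W) →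
    ∃ x : W, ∀ p : ℕ, Gd W n μ p → ∀ w : W, E (x * w ^ p) = E (x * w)

/-- **Dec** (80 lines). The bad part of `n` is bounded.

Proof. `n0` is the product of the `p ^ v_p(n)` which are `≤ μ` (`p ∣ n` prime); there are at most `μ` such primes
(they are `≤ μ`), so `n0 ≤ μ ^ μ`. `n1` is the product of the others. -/
def S_Dec : Prop :=
  ∀ n μ : ℕ, 0 < n → 0 < μ → ∃ n0 n1 : ℕ, n = n0 * n1 ∧ n0 ≤ μ ^ μ ∧
    ∀ p : ℕ, p.Prime → p ∣ n1 → ∃ b : ℕ, p ^ b ∣ n ∧ μ < p ^ b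

/-- **Fix** (60 lines, uses `S_Tra`, `S_Dec`).

Proof. `x` from `S_Tra`. If all the prime factors of `m > 0` satisfy `Gd W n μ` then `E (x * w ^ m) = E (x * w)` for all `w`
(induction on `m`: `induction m using Nat.recOnMul` or `Nat.strong_induction`). A prime `p ∣ n` does not
divide `|W|`. For `m = n1` use `S_Dec`; for the second claim `b = 1` and induction. -/
def S_Fix : Prop :=
  ∀ (W : Type) [CommGroup W] [Fintype W] (E : W → ℕ) (n μ : ℕ), Cor E n μ → 0 < n → 0 < μ →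
    Nat.Coprime (∑ w, E w) (Fintype.card W) → Nat.Coprime n (Fintype.card W) →
    ∃ (x : W) (n0 n1 : ℕ), n = n0 * n1 ∧ n0 ≤ μ ^ μ ∧ (∀ w : W, E (x * w ^ n1) = E (x * w)) ∧
      ∀ m : ℕ, 0 < m → (∀ p : ℕ, p.Prime → p ∣ m → μ < p ∧ p ∣ n) →
        ∀ w : W, E (x * w ^ m) = E (x * w)

/-- **Ari** (120 lines). The arithmetic.

Proof. Integers `U 0 = 0`, `U 1 = 1`, `U (j + 2) = U (j + 1) - l U j`. (1) `U j ≡ 1` mod `l` for `j ≥ 1`, so
`U j ≠ 0` (`l ≥ 2`). (2) `q ∣ k ^ (j + 1) - (U (j + 1) * k - l * U j)` by induction, as `k ^ 2 ≡ k - l` mod `q`.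
(3) `k ^ 2 ≡ n0 n1`, `n1 ^ φ ≡ 1`, so `k ^ (2 φ) ≡ n0 ^ φ` mod `q`. With `A = U (2 φ)`,
`b = - l U (2 φ - 1) - n0 ^ φ`: `q ∣ A k + b`. (4) `q ∣ M := l A ^ 2 + A b + b ^ 2`, because
`(A k + b) (A (1 - k) + b) = A ^ 2 (k - k ^ 2) + A b + b ^ 2 ≡ M` mod `q`. (5) `4 M = (2 b + A) ^ 2 + (4 l - 1) A ^ 2 > 0`, so
`q ≤ M`. `M` depends only on `φ ≤ Φ` and `n0 ≤ C` (and `l`): let `B` be the sum of all the `|M|`. -/
def S_Ari : Prop :=
  ∀ l Φ C : ℕ, 2 ≤ l → ∃ B : ℕ, ∀ φ n0 n1 k q : ℕ, 1 ≤ φ → φ ≤ Φ → n0 ≤ C →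
    (q : ℤ) ∣ (k : ℤ) ^ 2 - k + l → (q : ℤ) ∣ (k : ℤ) ^ 2 - n0 * n1 →
    (q : ℤ) ∣ (n1 : ℤ) ^ φ - 1 → q ≤ B

/-- **Orb** (60 lines). A finite set which is closed under `w ↦ w ^ m`.

Proof. `w ↦ w ^ m` is injective on `W` (`m` is prime to `|W|`), so it permutes `T`; the elements `w ^ (m ^ i)`,
`0 ≤ i ≤ |T|`, are in `T`, so two of them are equal (pigeonhole), and by injectivity `w ^ (m ^ φ) = w` for some
`1 ≤ φ ≤ |T|`. -/
def S_Orb : Prop :=
  ∀ (W : Type) [CommGroup W] [Fintype W] (T : Finset W) (m : ℕ),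
    Nat.Coprime m (Fintype.card W) → (∀ w ∈ T, w ^ m ∈ T) → ∀ w ∈ T,
    ∃ φ : ℕ, 1 ≤ φ ∧ φ ≤ T.card ∧ ((orderOf w : ℕ) : ℤ) ∣ (m : ℤ) ^ φ - 1

/-- **Psh** (120 lines). The image of a difference set.

Proof. Counting. `E(w)` = number of `d ∈ D` with `f d = w`. `∑ E(w g) E(w)` is the number of pairs
`(d, d') ∈ D × D` with `f (d d'⁻¹) = g`, so it is the sum over the `x` with `f x = g` (there are `|ker f|` of
them) of the number of pairs with `d d'⁻¹ = x`, which is `l` for `x ≠ 1` and `|D|` for `x = 1`. The case `f : G → 1`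
gives `|D| ^ 2 = |D| + l (|G| - 1)`. `l ≤ |D|`: the pairs with `d d'⁻¹ = x` are determined by `d`. -/
def S_Psh : Prop :=
  ∀ (G : Type) [Group G] [Fintype G] [DecidableEq G] (D : Finset G) (l : ℕ), IsDS D l →
    2 ≤ Fintype.card G →
    l ≤ D.card ∧ D.card ^ 2 = (D.card - l) + l * Fintype.card G ∧
    ∀ (W : Type) [CommGroup W] [Fintype W] [DecidableEq W] (f : G →* W), Function.Surjective f →
      Fintype.card G = Nat.card f.ker * Fintype.card W ∧
      (∑ w, (D.filter fun d => f d = w).card) = D.card ∧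
      Cor (fun w => (D.filter fun d => f d = w).card) (D.card - l) (l * Nat.card f.ker)

/-- **A** (200 lines, uses `S_Fix`, `S_Ari`, `S_Orb`, `S_Psh`).

Proof. `μ = l r` (`r ≥ 1`; for `r = 0` nothing to do), `B` = the maximum of `μ + l + 2` and of the bound of
`S_Ari l (l r) (μ ^ μ)`. If `|W| = 1` take `g = 1`, `j = |D|`: the filter is all of `D`, and
`l (r - 1) = j (j - 1)` is the equation of `S_Psh` (for `|G| = 1` it is trivial, `j ≤ 1`). Otherwise let `k = |D|`,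
`n = k - l`, `v = |G|`; `|W|` has a prime factor `> B`, so `v > l + 2`, and `n > 0` (`k = l` would give `v = l`).
A prime factor `q` of `|W|` does not divide `k` (`k ^ 2 = k - l + l v` would give `q ∣ l`) and does not divide `n`
(`q ∣ n`, `q ∣ v` give `q ∣ k`, so `q ∣ l`). `E(w)` = the number of `d ∈ D` with `f d = w`; `S_Fix` gives `x`, `n0`, `n1`.
Let `g` be such that `f g = x⁻¹`; then the number of `d ∈ D` with `f (d g) = w` is `E(x w) =: F(w)`. `∑ F(w) (F(w) - 1) =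
n + μ - k = l (r - 1)`. Let `T` be the set of `w ≠ 1` with `F(w) ≥ 2`: `2 |T| ≤ l (r - 1)`, and `T` is closed under
`w ↦ w ^ n1` (`F(w ^ n1) = F(w)`, `n1` is prime to `|W|`). If there is `w ∈ T`, let `q` be a prime factor of its
order; `S_Orb` gives `φ ≤ l r` with `q ∣ n1 ^ φ - 1`; `q ∣ v`, so `q ∣ k ^ 2 - n` and `q ∣ k ^ 2 - k + l`
(`= l v`); `S_Ari` gives `q ≤ B`, a contradiction. So `F(w) ≤ 1` for `w ≠ 1`, and `l (r - 1) = j (j - 1)`, `j = F(1)`. If
`y ∈ ker f`, `y ≠ 1`, and `d d'⁻¹ = y`, `d, d' ∈ D`, then `d ≠ d'`, `f (d g) = f (d' g)`, so this is `1`. So all the `l`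
pairs of `y` are in the translate. -/
def S_A : Prop :=
  ∀ l r : ℕ, 2 ≤ l → ∃ B : ℕ, ∀ (G W : Type) [Group G] [Fintype G] [DecidableEq G] [CommGroup W]
    [Fintype W] [DecidableEq W] (f : G →* W) (D : Finset G), Function.Surjective f →
    Nat.card f.ker = r → (∀ q : ℕ, q.Prime → q ∣ Fintype.card W → B < q) → IsDS D l →
    ∃ (g : G) (j : ℕ), (D.filter fun d => f (d * g) = 1).card = j ∧ l * (r - 1) = j * (j - 1) ∧
      (∀ y : G, y ≠ 1 → f y = 1 → (((D.filter fun d => f (d * g) = 1) ×ˢ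
        (D.filter fun d => f (d * g) = 1)).filter (fun p => p.1 * p.2⁻¹ = y)).card = l) ∧
      ∀ w : W, w ≠ 1 → (D.filter fun d => f (d * g) = w).card ≤ 1

/-- **B** (200 lines, uses `S_Fix`, `S_Ari`, `S_Psh`).

Proof. `B` from `S_Ari l e (l ^ l)`. `k = |D| ≥ 8`, `v = |G|`, `n = k - l > 0` (`k ≥ 4 l`). `v` is prime to `k` and `n` (a common
prime factor divides `l`, see `S_A`). `E` = the indicator of `D`, `μ = l` (`S_Psh` for `f = id`, `|ker| = 1`). `S_Fix` gives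
`x, n0, n1`; `D' = {w | x w ∈ D}` satisfies `w ^ n1 ∈ D' ↔ w ∈ D'`; it is a translate of `D`, so it is a difference set.
Let `e'` be the exponent of `G / N`; `e' ∣ e` and `e' ∣ v`, so `n1` is prime to `e'`; let `φ = φ(e') ≤ e` (Euler),
`t = n1 ^ φ ≡ 1` mod `e'` (`t ≥ 1`), so `w ^ (t - 1) ∈ N` for all `w`. If `d ∈ D'` is the only element of `D'` in `d N` then
`d ^ t ∈ D' ∩ d N`, so `d ^ (t - 1) = 1`. The other elements `d` of `D'` belong to a pair `(d, d')`, `d ≠ d'`,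
`d d'⁻¹ ∈ N`; there are `l (|N| - 1)` such pairs. So `H = {w | w ^ (t - 1) = 1}` contains `k₁ ≥ k - l (|N| - 1)` elements of
`D'`, `4 k₁ ≥ 3 k`. Their pairs give `k₁ (k₁ - 1) ≤ l (|H| - 1)`. If `H ≠ G` then `2 |H| ≤ v` and
`2 k₁ (k₁ - 1) ≤ l (v - 2) = k (k - 1) - l`, a contradiction to `k₁ ≥ 3 k / 4`, `k ≥ 8`. So `H = G` and the exponent `E₀` of `G` divides
`n1 ^ φ - 1`; it divides `v`, so it divides `k ^ 2 - n` and `k ^ 2 - k + l`; `S_Ari`. -/
def S_B : Prop :=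
  ∀ l e : ℕ, 2 ≤ l → 0 < e → ∃ B : ℕ, ∀ (G : Type) [CommGroup G] [Fintype G] [DecidableEq G]
    (N : Subgroup G) (D : Finset G), IsDS D l → Nat.Coprime (Fintype.card G) l →
    (∀ x : G, x ^ e ∈ N) → 4 * l * Nat.card N ≤ D.card → Monoid.exponent G ≤ B

/-- **Sym** (150 lines). Symmetric difference sets.

Proof. Characters `χ : G → ℂ` (`AddChar` or `MonoidHom` to `ℂˣ`); `χ(D) = ∑_{d ∈ D} χ(d)`. For `χ ≠ 1`:
`χ(D) conj χ(D) = n` (`n = k - l > 0`) and `χ(D)` is real, as `D` is symmetric; so `χ(D) = ε √n`, `ε = ± 1`. `u ∉ D`: by Fourier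
inversion `0 = ∑_χ χ(D) χ(u)⁻¹ = k + √n Z`, `Z = ∑_{χ ≠ 1} ε_χ χ(u)⁻¹`, an algebraic integer. So `Z ^ 2 = k ^ 2 / n` is rational and
integral over `ℤ`, so it is an integer, `n ∣ k ^ 2 = (n + l) ^ 2`, and `n ∣ l ^ 2`. (The file
Results/MP_706923_co/DihedralQuotient.lean has Fourier lemmas of this kind.) -/
def S_Sym : Prop :=
  ∀ (G : Type) [CommGroup G] [Fintype G] [DecidableEq G] (D : Finset G) (l : ℕ), IsDS D l →
    l < D.card → (∀ g : G, g ∈ D → g⁻¹ ∈ D) → (∃ u : G, u ∉ D) → (D.card - l) ∣ l ^ 2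

/-- **C** (180 lines, uses `S_Fix`, `S_Sym`, `S_Psh`).

Proof. `L = l!`, `B = L ^ 2 + (l + 1) * L + 2 * l ^ 2 + 4`. Suppose that all the primes `p` with `l < p ≤ B` divide `n`. As in `S_B`
`v` is prime to `k` and `n`; `S_Fix` (`μ = l`, `E` the indicator of `D`) gives `x`; `D' = {w | x w ∈ D}`, a difference set.
Every `m`, `0 < m ≤ B`, without prime factors `≤ l` satisfies `w ^ m ∈ D' ↔ w ∈ D'`. This applies to `m_i = 1 + i L`,
`0 ≤ i ≤ l + 1` (prime to `L`). Let `d ∈ D'`. If `d ^ L ≠ 1`: the pairs `(d ^ m_(i+1), d ^ m_i)`, `0 ≤ i ≤ l`, have the quotient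
`d ^ L`, and there are only `l` pairs with this quotient, so `d ^ m_i = d ^ m_j` for some `i < j ≤ l`,
`d ^ ((j - i) L) = 1`, `j - i` divides `L`. So `d ^ (L ^ 2) = 1` in all cases. Every `g ≠ 1` is `d d'⁻¹` with `d, d' ∈ D'` (`l ≥ 1`),
so `g ^ (L ^ 2) = 1` for all `g`. If `l = 1` then `L = 1`, `G` is trivial, contradiction to `|D| > l`. If `l ≥ 2`,
`m = L ^ 2 - 1` has no prime factors `≤ l`, so `w⁻¹ = w ^ m ∈ D'` for `w ∈ D'`. `D' ≠ G` (otherwise `k = v`, and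
`k ^ 2 = k - l + l v` gives `k = l`). `S_Sym`: `n ∣ l ^ 2`, so `n ≤ l ^ 2`. By Bertrand (`Nat.exists_prime_lt_and_le_two_mul`) there is a
prime `p` with `l ^ 2 < p ≤ 2 l ^ 2`; it divides `n`, a contradiction. -/
def S_C : Prop :=
  ∀ l : ℕ, 1 ≤ l → ∃ B : ℕ, ∀ (G : Type) [CommGroup G] [Fintype G] [DecidableEq G]
    (D : Finset G), IsDS D l → Nat.Coprime (Fintype.card G) l → l < D.card →
    ∃ p : ℕ, p.Prime ∧ l < p ∧ p ≤ B ∧ ¬ p ∣ D.card - l

end Pool.Agent.DSub
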