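import Pool.Agent.Lib.MP_706923_coS.Spec

/-!
# MP_706923_co, package S: symmetric difference sets
-/

set_option autoImplicit false

namespace Pool.Agent.DSub

section

variable {G : Type} [CommGroup G]

/-- The value of a character at an element of the multiplicative group. -/
private noncomputable def ev (ψ : AddChar (Additive G) ℂ) (g : G) : ℂ := ψ (Additive.ofMul g)

private theorem ev_mul (ψ : AddChar (Additive G) ℂ) (g h : G) :
    ev ψ (g * h) = ev ψ g * ev ψ h := by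
  unfold ev
  rw [ofMul_mul, AddChar.map_add_eq_mul]

private theorem ev_one (ψ : AddChar (Additive G) ℂ) : ev ψ (1 : G) = 1 := by
  unfold ev
  rw [ofMul_one, AddChar.map_zero_eq_one]

private theorem ev_pow (ψ : AddChar (Additive G) ℂ) (g : G) (m : ℕ) :
    ev ψ (g ^ m) = ev ψ g ^ m := by
  induction m with
  | zero => rw [pow_zero, pow_zero, ev_one]
  | succ m ih => rw [pow_succ, pow_succ, ev_mul, ih]

private theorem ev_int [Fintype G] (ψ : AddChar (Additive G) ℂ) (g : G) :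
    IsIntegral ℤ (ev ψ g) := by
  refine IsIntegral.of_pow (n := Fintype.card G) Fintype.card_pos ?_
  rw [← ev_pow, pow_card_eq_one, ev_one]
  exact isIntegral_one

private theorem ev_sum [Fintype G] {ψ : AddChar (Additive G) ℂ} (hψ : ψ ≠ 0) :
    ∑ g : G, ev ψ g = 0 := by
  have h := (AddChar.sum_eq_zero_iff_ne_zero (ψ := ψ)).2 hψ
  rw [← h]
  exact Fintype.sum_equiv Additive.ofMul _ _ fun g => rfl

private theorem ev_dual [Fintype G] [DecidableEq G] (g : G) :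
    ∑ ψ : AddChar (Additive G) ℂ, ev ψ g = if g = 1 then (Fintype.card G : ℂ) else 0 := by
  have h : ∑ ψ : AddChar (Additive G) ℂ, ev ψ g = _ :=
    AddChar.sum_apply_eq_ite (Additive.ofMul g)
  rw [h]
  by_cases hg : g = 1
  · rw [if_pos hg, if_pos (by rw [hg]; rfl)]
    exact_mod_cast Fintype.card_congr (Additive.toMul (α := G))
  · rw [if_neg hg, if_neg]
    intro h0
    exact hg (Additive.ofMul.injective h0)

/-- The square of the sum of the values of a character on a symmetric difference set. -/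
private theorem ev_sq [Fintype G] [DecidableEq G] {D : Finset G} {l : ℕ} (hD : IsDS D l)
    (hl : l < D.card) (hsym : ∀ g : G, g ∈ D → g⁻¹ ∈ D) {ψ : AddChar (Additive G) ℂ}
    (hψ : ψ ≠ 0) : (∑ d ∈ D, ev ψ d) ^ 2 = ((D.card - l : ℕ) : ℂ) := by
  have h1 : ∑ d ∈ D, ev ψ d = ∑ d ∈ D, ev ψ d⁻¹ := by
    refine Finset.sum_nbij' (fun g => g⁻¹) (fun g => g⁻¹) hsym hsym ?_ ?_ ?_
    · intro g _
      exact inv_inv g
    · intro g _
      exact inv_inv g
    · intro g _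
      rw [inv_inv]
  have h2 : (∑ d ∈ D, ev ψ d) ^ 2 = ∑ p ∈ D ×ˢ D, ev ψ (p.1 * p.2⁻¹) := by
    rw [pow_two]
    nth_rw 2 [h1]
    rw [Finset.sum_mul_sum, Finset.sum_product]
    exact Finset.sum_congr rfl fun d _ => Finset.sum_congr rfl fun d' _ => (ev_mul ψ d d'⁻¹).symm
  have h3 : ∑ p ∈ D ×ˢ D, ev ψ (p.1 * p.2⁻¹) =
      ∑ g : G, ((((D ×ˢ D).filter fun p => p.1 * p.2⁻¹ = g).card : ℕ) : ℂ) * ev ψ g := by
    rw [← Finset.sum_fiberwise (D ×ˢ D) (fun p => p.1 * p.2⁻¹) fun p => ev ψ (p.1 * p.2⁻¹)]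
    refine Finset.sum_congr rfl fun g _ => ?_
    rw [Finset.sum_congr rfl (g := fun _ => ev ψ g), Finset.sum_const, nsmul_eq_mul]
    intro p hp
    rw [(Finset.mem_filter.1 hp).2]
  have h4 : ((D ×ˢ D).filter fun p => p.1 * p.2⁻¹ = 1).card = D.card := by
    rw [show ((D ×ˢ D).filter fun p => p.1 * p.2⁻¹ = 1) = D.image fun d => (d, d) from ?_,
      Finset.card_image_of_injective _ fun a b h => (Prod.mk.inj h).1]
    ext ⟨a, b⟩
    simp only [Finset.mem_filter, Finset.mem_product, Finset.mem_image, Prod.mk.injEq,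
      mul_inv_eq_one]
    constructor
    · rintro ⟨⟨ha, -⟩, rfl⟩
      exact ⟨a, ha, rfl, rfl⟩
    · rintro ⟨d, hd, rfl, rfl⟩
      exact ⟨⟨hd, hd⟩, rfl⟩
  rw [h2, h3, ← Finset.add_sum_erase _ _ (Finset.mem_univ (1 : G)), h4, ev_one, mul_one]
  have h5 : ∑ g ∈ Finset.univ.erase (1 : G),
      ((((D ×ˢ D).filter fun p => p.1 * p.2⁻¹ = g).card : ℕ) : ℂ) * ev ψ g =
      ∑ g ∈ Finset.univ.erase (1 : G), (l : ℂ) * ev ψ g := by
    refine Finset.sum_congr rfl fun g hg => ?_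
    rw [hD g (Finset.ne_of_mem_erase hg)]
  have h6 := ev_sum hψ
  rw [← Finset.add_sum_erase _ _ (Finset.mem_univ (1 : G)), ev_one] at h6
  rw [h5, ← Finset.mul_sum, eq_neg_of_add_eq_zero_right h6, Nat.cast_sub hl.le]
  ring

private theorem final_dvd {k l : ℕ} (hl : l < k)
    (h : IsIntegral ℤ ((k : ℂ) ^ 2 / ((k - l : ℕ) : ℂ))) : (k - l) ∣ l ^ 2 := by
  have hn : ((k - l : ℕ) : ℚ) ≠ 0 := by
    have : 0 < k - l := Nat.sub_pos_of_lt hl
    exact_mod_cast this.ne'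
  have h1 : (k : ℂ) ^ 2 / ((k - l : ℕ) : ℂ) = algebraMap ℚ ℂ ((k : ℚ) ^ 2 / ((k - l : ℕ) : ℚ)) := by
    simp
  rw [h1, isIntegral_algebraMap_iff (algebraMap ℚ ℂ).injective] at h
  obtain ⟨y, hy⟩ := IsIntegrallyClosed.isIntegral_iff.1 h
  rw [eq_div_iff hn] at hy
  have h2 : (y * ((k - l : ℕ) : ℤ)) = (k : ℤ) ^ 2 := by
    have h3 : ((y * ((k - l : ℕ) : ℤ) : ℤ) : ℚ) = (((k : ℤ) ^ 2 : ℤ) : ℚ) := by
      push_cast
      simpa using hy
    exact_mod_cast h3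
  have h3 : ((k - l : ℕ) : ℤ) ∣ (k : ℤ) ^ 2 := ⟨y, by rw [← h2]; ring⟩
  have h4 : (k - l) ∣ k ^ 2 := by exact_mod_cast h3
  obtain ⟨m, hm⟩ : ∃ m, k = m + l := ⟨k - l, by omega⟩
  subst hm
  rw [Nat.add_sub_cancel] at h4 ⊢
  have h5 : (m + l) ^ 2 = m * (m + 2 * l) + l ^ 2 := by ring
  rw [h5] at h4
  exact (Nat.dvd_add_right (Dvd.intro _ rfl)).1 h4

end

theorem tSym : S_Sym := by
  classical
  intro G _ _ _ D l hD hl hsym ⟨u, hu⟩
  refine final_dvd hl ?_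
  have hn : ((D.card - l : ℕ) : ℂ) ≠ 0 := by
    have : 0 < D.card - l := Nat.sub_pos_of_lt hl
    exact_mod_cast this.ne'
  set n : ℂ := ((D.card - l : ℕ) : ℂ) with hndef
  set a : AddChar (Additive G) ℂ → ℂ := fun ψ => (∑ d ∈ D, ev ψ d) * ev ψ u⁻¹ with ha
  have h1 : ∑ ψ, a ψ = 0 := by
    have h2 : ∀ ψ, a ψ = ∑ d ∈ D, ev ψ (d * u⁻¹) := by
      intro ψ
      rw [ha]
      simp only
      rw [Finset.sum_mul]
      exact Finset.sum_congr rfl fun d _ => (ev_mul ψ d u⁻¹).symm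
    rw [Finset.sum_congr rfl fun ψ _ => h2 ψ, Finset.sum_comm]
    refine Finset.sum_eq_zero fun d hd => ?_
    rw [ev_dual, if_neg]
    intro h
    rw [mul_inv_eq_one] at h
    exact hu (h ▸ hd)
  rw [← Finset.add_sum_erase _ _ (Finset.mem_univ (0 : AddChar (Additive G) ℂ))] at h1
  have h0 : a 0 = (D.card : ℂ) := by
    rw [ha]
    simp [ev]
  rw [h0] at h1
  have h2 : (D.card : ℂ) ^ 2 / n = ∑ ψ ∈ Finset.univ.erase (0 : AddChar (Additive G) ℂ),
      ∑ φ ∈ Finset.univ.erase (0 : AddChar (Additive G) ℂ), a ψ * a φ / n := by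
    rw [eq_neg_of_add_eq_zero_left h1, neg_sq, pow_two, Finset.sum_mul_sum, Finset.sum_div]
    exact Finset.sum_congr rfl fun ψ _ => Finset.sum_div _ _ _
  rw [h2]
  refine IsIntegral.sum _ fun ψ hψ => IsIntegral.sum _ fun φ hφ => ?_
  have e1 : a ψ ^ 2 = n * ev ψ u⁻¹ ^ 2 := by
    rw [ha]
    simp only
    rw [mul_pow, ev_sq hD hl hsym (Finset.ne_of_mem_erase hψ)]
  have e2 : a φ ^ 2 = n * ev φ u⁻¹ ^ 2 := by
    rw [ha]
    simp only
    rw [mul_pow, ev_sq hD hl hsym (Finset.ne_of_mem_erase hφ)]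
  refine IsIntegral.of_pow (n := 2) (by norm_num) ?_
  have e3 : (a ψ * a φ / n) ^ 2 = ev ψ u⁻¹ ^ 2 * ev φ u⁻¹ ^ 2 := by
    rw [div_pow, mul_pow, e1, e2]
    field_simp
  rw [e3]
  exact ((ev_int ψ u⁻¹).pow 2).mul ((ev_int φ u⁻¹).pow 2)

end Pool.Agent.DSub
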