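import Pool.Agent.Lib.MP_706923_coS.Spec

/-!
# A common fixed translate
-/

set_option autoImplicit false

namespace Pool.Agent.DSub

private theorem tra_shift {W : Type} [CommGroup W] [Fintype W] (F : W → ℕ) (x : W) :
    ∏ w, w ^ F (x * w) = (x⁻¹) ^ (∑ w, F w) * ∏ w, w ^ F w := by
  have h : ∏ w, w ^ F (x * w) = ∏ w, (x⁻¹ * w) ^ F w :=
    Fintype.prod_equiv (Equiv.mulLeft x) _ _ fun w => by
      rw [Equiv.coe_mulLeft, inv_mul_cancel_left]
  rw [h]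
  simp_rw [mul_pow]
  rw [Finset.prod_mul_distrib, Finset.prod_pow_eq_pow_sum]

theorem tTra (h : S_Mul) : S_Tra := by
  classical
  intro W _ _ E n μ hC hn hco
  have hco' : (Nat.card W).Coprime (∑ w, E w) := by
    rw [Nat.card_eq_fintype_card]
    exact hco.symm
  obtain ⟨x, hx⟩ := (powCoprime hco').surjective (∏ w, w ^ E w)
  have hx' : x ^ (∑ w, E w) = ∏ w, w ^ E w := hx
  refine ⟨x, fun p hp w => ?_⟩
  obtain ⟨g, hg⟩ := h W E n μ p hC hn hp
  have hcp : (Nat.card W).Coprime p := by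
    rw [Nat.card_eq_fintype_card]
    exact ((Nat.Prime.coprime_iff_not_dvd hp.pr).2 hp.nd).symm
  have hsum : ∑ w, E (x * w) = ∑ w, E w :=
    Fintype.sum_equiv (Equiv.mulLeft x) _ _ fun w => rfl
  have hpi : ∏ w, w ^ E (x * w) = 1 := by
    rw [tra_shift, ← hx', inv_pow, inv_mul_cancel]
  have hE' : ∀ w, E (x * (x⁻¹ * g * x ^ p * w ^ p)) = E (x * w) := by
    intro w
    rw [← hg (x * w)]
    congr 1
    rw [mul_pow, ← mul_assoc, ← mul_assoc, ← mul_assoc, mul_inv_cancel, one_mul, mul_assoc]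
  have h1 : (∏ w, w ^ E (x * w)) ^ p = ((x⁻¹ * g * x ^ p)⁻¹) ^ (∑ w, E w) := by
    rw [← Finset.prod_pow]
    have h2 : ∏ w, (w ^ E (x * w)) ^ p =
        ∏ w, w ^ E (x * (x⁻¹ * g * x ^ p * w)) := by
      refine Fintype.prod_equiv (powCoprime hcp) _ _ fun w => ?_
      change (w ^ E (x * w)) ^ p = (w ^ p) ^ E (x * (x⁻¹ * g * x ^ p * w ^ p))
      rw [hE', ← pow_mul, ← pow_mul, mul_comm]
    rw [h2, tra_shift (fun w => E (x * w)) (x⁻¹ * g * x ^ p), hpi, mul_one, hsum]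
  rw [hpi, one_pow] at h1
  have h3 : (x⁻¹ * g * x ^ p)⁻¹ = 1 := by
    refine (powCoprime hco').injective ?_
    change ((x⁻¹ * g * x ^ p)⁻¹) ^ (∑ w, E w) = 1 ^ (∑ w, E w)
    rw [← h1, one_pow]
  have h4 : x⁻¹ * g * x ^ p = 1 := inv_eq_one.1 h3
  have h5 := hE' w
  rw [h4, one_mul] at h5
  exact h5

end Pool.Agent.DSub
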